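import Pool.Agent.Zk41.TD.FA

/-!
Zk41/TD (helper41): three-digit palindromes with at most two prime factors in all boxes.
-/

set_option autoImplicit false

open Finset Filter

namespace Pool.Agent.Zk41.TD

open Pool.Agent.K3h19.RV (Lam)

open Classical in
lemma slices (P : ℕ × ℕ → Prop) (a0 c0 A C B k : ℕ) (hkB : k * B ≤ A) :
    ∑ i ∈ range k, ((Ico (a0 + i * B) (a0 + i * B + B) ×ˢ Ico c0 (c0 + C)).filter P).card ≤
      ((Ico a0 (a0 + A) ×ˢ Ico c0 (c0 + C)).filter P).card := by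
  rw [← card_biUnion]
  · apply card_le_card
    intro w hw
    rw [mem_biUnion] at hw
    obtain ⟨i, hi, hw⟩ := hw
    rw [mem_range] at hi
    rw [mem_filter, mem_product, mem_Ico, mem_Ico] at hw ⊢
    obtain ⟨⟨⟨h1, h2⟩, h3⟩, h4⟩ := hw
    refine ⟨⟨⟨by omega, ?_⟩, h3⟩, h4⟩
    have h5 : (i + 1) * B ≤ k * B := Nat.mul_le_mul_right _ hi
    have h6 : (i + 1) * B = i * B + B := by ring
    omega
  · intro i _ j _ hij
    rw [Function.onFun, Finset.disjoint_left]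
    intro w hw hw'
    rw [mem_filter, mem_product, mem_Ico, mem_Ico] at hw hw'
    have h1 := hw.1.1
    have h2 := hw'.1.1
    rcases lt_or_gt_of_ne hij with h | h
    · have h5 : (i + 1) * B ≤ j * B := Nat.mul_le_mul_right _ h
      have h6 : (i + 1) * B = i * B + B := by ring
      omega
    · have h5 : (j + 1) * B ≤ i * B := Nat.mul_le_mul_right _ h
      have h6 : (j + 1) * B = j * B + B := by ring
      omega

open Classical in
/-- **All boxes.** -/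
theorem boxes (hSQ : S_SQ') (θ : ℝ) (hθ : 3 / Lam 2 < θ) :
    ∃ c : ℝ, 0 < c ∧ ∃ b0 : ℕ, ∀ b : ℕ, b0 ≤ b → ∀ A C a0 c0 : ℕ, (b : ℝ) ^ θ ≤ A * C →
      1 ≤ a0 → a0 + A ≤ b → c0 + C ≤ b →
      c * (A * C) / Real.log b ≤
        (((Ico a0 (a0 + A) ×ˢ Ico c0 (c0 + C)).filter (fun w : ℕ × ℕ => Good b w.1 w.2)).card : ℝ) := by
  have hl1 := lam2_lo
  have hl2 := lam2_hi
  have hl0 : 0 < Lam 2 := by linarith
  have h85 : (8 / 5 : ℝ) ≤ 3 / Lam 2 := by rw [le_div_iff₀ hl0]; linarith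
  obtain ⟨η, hηd⟩ : ∃ η : ℝ, η = min (1 / 100) ((θ - 3 / Lam 2) / 4) := ⟨_, rfl⟩
  have hη : 0 < η := by rw [hηd]; apply lt_min <;> linarith
  have hη1 : η ≤ 1 / 100 := by rw [hηd]; exact min_le_left _ _
  have hη2 : η ≤ (θ - 3 / Lam 2) / 4 := by rw [hηd]; exact min_le_right _ _
  obtain ⟨c, hc, b1, HF⟩ := flat hSQ (θ - 3 * η) η (by linarith) hη (by linarith)
  have hcast : Tendsto (fun b : ℕ => (b : ℝ)) atTop atTop := tendsto_natCast_atTop_atTop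
  have v1 : ∀ᶠ b : ℕ in atTop, (2 : ℝ) ≤ (b : ℝ) ^ η := ((tendsto_rpow_atTop hη).comp hcast).eventually_ge_atTop _
  obtain ⟨b2, hb2⟩ := eventually_atTop.1 v1
  refine ⟨c / 2, by positivity, b1 + b2 + 3, fun b hb A C a0 c0 hAC ha0 ha hc0 => ?_⟩
  have w1 := hb2 b (by omega)
  have hbr : (3 : ℝ) ≤ b := by exact_mod_cast (by omega : 3 ≤ b)
  have hb0 : (0 : ℝ) < b := by linarith
  have hb1' : (1 : ℝ) ≤ b := by linarith
  have hlb : 0 < Real.log b := Real.log_pos (by linarith)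
  have hA : A ≤ b := by omega
  have hC : C ≤ b := by omega
  have hAr : (A : ℝ) ≤ b := by exact_mod_cast hA
  have hCr : (C : ℝ) ≤ b := by exact_mod_cast hC
  have hAC' : (b : ℝ) ^ (θ - 3 * η) ≤ A * C := (Real.rpow_le_rpow_of_exponent_le hb1' (by linarith)).trans hAC
  have hpos : 0 < (A : ℝ) * C := lt_of_lt_of_le (by positivity) hAC
  have hhalf : c / 2 * ((A : ℝ) * C) / Real.log b ≤ c * (A * C) / Real.log b := by
    apply div_le_div_of_nonneg_right _ hlb.le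
    nlinarith
  by_cases h1 : (A : ℝ) ≤ C * (b : ℝ) ^ (-η)
  · exact hhalf.trans (HF b (by omega) A C a0 c0 hA hC hAC' (Or.inl h1) ha0 ha hc0)
  by_cases h2 : (C : ℝ) ≤ A * (b : ℝ) ^ (-η)
  · exact hhalf.trans (HF b (by omega) A C a0 c0 hA hC hAC' (Or.inr h2) ha0 ha hc0)
  push Not at h1 h2
  -- the sides are comparable
  have hC0 : 0 < (C : ℝ) := by
    rcases (Nat.cast_nonneg C : (0 : ℝ) ≤ C).lt_or_eq with h | h
    · exact h
    · rw [← h, mul_zero] at hpos; exact absurd hpos (lt_irrefl _)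
  have hA0 : 0 < (A : ℝ) := by
    rcases (Nat.cast_nonneg A : (0 : ℝ) ≤ A).lt_or_eq with h | h
    · exact h
    · rw [← h, zero_mul] at hpos; exact absurd hpos (lt_irrefl _)
  have hbη : 0 < (b : ℝ) ^ η := by positivity
  rw [Real.rpow_neg hb0.le] at h1 h2
  obtain ⟨y, hy⟩ : ∃ y : ℝ, y = C * ((b : ℝ) ^ η)⁻¹ := ⟨_, rfl⟩
  have hyC : y * (b : ℝ) ^ η = C := by rw [hy]; field_simp
  have hy0 : 0 < y := by rw [hy]; positivity
  rw [← hy] at h1
  -- `C ≥ b^(3/5)`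
  have hCb : (b : ℝ) ^ (3 / 5 : ℝ) ≤ C := by
    have h3 : (b : ℝ) ^ (8 / 5 : ℝ) ≤ b * C :=
      ((Real.rpow_le_rpow_of_exponent_le hb1' (by linarith)).trans hAC).trans (mul_le_mul_of_nonneg_right hAr hC0.le)
    have h4 : (b : ℝ) ^ (8 / 5 : ℝ) = b * (b : ℝ) ^ (3 / 5 : ℝ) := by
      rw [show (8 / 5 : ℝ) = 1 + 3 / 5 by norm_num, Real.rpow_add hb0, Real.rpow_one]
    rw [h4] at h3
    exact le_of_mul_le_mul_left h3 hb0
  have hy2 : 2 ≤ y := by
    have h3 : (b : ℝ) ^ η * (b : ℝ) ^ η ≤ (b : ℝ) ^ (3 / 5 : ℝ) := by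
      rw [← Real.rpow_add hb0]
      exact Real.rpow_le_rpow_of_exponent_le hb1' (by linarith)
    have h4 : (b : ℝ) ^ η * (b : ℝ) ^ η ≤ y * (b : ℝ) ^ η := by rw [hyC]; linarith
    have h5 := le_of_mul_le_mul_right h4 hbη
    linarith
  obtain ⟨B, hB⟩ : ∃ B : ℕ, B = ⌊y⌋₊ := ⟨_, rfl⟩
  have hBy : (B : ℝ) ≤ y := by rw [hB]; exact Nat.floor_le hy0.le
  have hBy2 : y / 2 ≤ B := by
    have := Nat.lt_floor_add_one y
    rw [← hB] at this
    linarith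
  have hB1 : 1 ≤ B := by
    rw [hB]; exact Nat.le_floor (by push_cast; linarith)
  have hBr : (1 : ℝ) ≤ B := by exact_mod_cast hB1
  have hBA : B ≤ A := by
    have : (B : ℝ) < A := lt_of_le_of_lt hBy h1
    exact_mod_cast this.le
  obtain ⟨k, hk⟩ : ∃ k : ℕ, k = A / B := ⟨_, rfl⟩
  have hk1 : 1 ≤ k := by rw [hk]; exact Nat.div_pos hBA hB1
  have hkB : k * B ≤ A := by rw [hk]; exact Nat.div_mul_le_self _ _
  have hkB2 : A ≤ 2 * (k * B) := by
    have h3 := Nat.lt_div_mul_add (a := A) hB1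
    rw [← hk] at h3
    have h4 : B ≤ k * B := Nat.le_mul_of_pos_left _ hk1
    omega
  have hBC : (b : ℝ) ^ (θ - 3 * η) ≤ B * C := by
    have h3 : (A : ℝ) * C ≤ 2 * (b : ℝ) ^ (2 * η) * (B * C) := by
      have h4 : (A : ℝ) < (b : ℝ) ^ η * C := by
        rw [mul_comm (A : ℝ), ← div_eq_inv_mul, div_lt_iff₀ hbη] at h2
        linarith
      have h5 : (C : ℝ) ≤ 2 * B * (b : ℝ) ^ η := by
        rw [← hyC]
        exact mul_le_mul_of_nonneg_right (by linarith) hbη.le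
      have h6 : (b : ℝ) ^ (2 * η) = (b : ℝ) ^ η * (b : ℝ) ^ η := by
        rw [← Real.rpow_add hb0]; congr 1; ring
      rw [h6]
      have h7 : (A : ℝ) ≤ (b : ℝ) ^ η * (2 * B * (b : ℝ) ^ η) := h4.le.trans (mul_le_mul_of_nonneg_left h5 hbη.le)
      calc (A : ℝ) * C ≤ ((b : ℝ) ^ η * (2 * B * (b : ℝ) ^ η)) * C := mul_le_mul_of_nonneg_right h7 hC0.le
        _ = _ := by ring
    have h8 : (b : ℝ) ^ θ = (b : ℝ) ^ (θ - 3 * η) * ((b : ℝ) ^ (2 * η) * (b : ℝ) ^ η) := by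
      rw [← Real.rpow_add hb0, ← Real.rpow_add hb0]
      congr 1
      ring
    have h9 := hAC.trans h3
    rw [h8] at h9
    have hX : 0 < (b : ℝ) ^ (2 * η) := by positivity
    have hZ : 0 < (b : ℝ) ^ (θ - 3 * η) := by positivity
    have h10 : (b : ℝ) ^ (θ - 3 * η) * ((b : ℝ) ^ (2 * η) * 2) ≤ (b : ℝ) ^ (θ - 3 * η) * ((b : ℝ) ^ (2 * η) * (b : ℝ) ^ η) := by gcongr
    have h11 : ((b : ℝ) ^ (2 * η) * 2) * (b : ℝ) ^ (θ - 3 * η) ≤ ((b : ℝ) ^ (2 * η) * 2) * (B * C) := by linarith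
    exact le_of_mul_le_mul_left h11 (by positivity)
  have hfl : (B : ℝ) ≤ C * (b : ℝ) ^ (-η) := by
    rw [Real.rpow_neg hb0.le, ← hy]
    exact hBy
  have hsl := slices (fun w : ℕ × ℕ => Good b w.1 w.2) a0 c0 A C B k hkB
  have hsum : ∑ i ∈ range k, c * ((B : ℝ) * C) / Real.log b ≤
      ∑ i ∈ range k, (((Ico (a0 + i * B) (a0 + i * B + B) ×ˢ Ico c0 (c0 + C)).filter (fun w : ℕ × ℕ => Good b w.1 w.2)).card : ℝ) := by
    apply sum_le_sum
    intro i hi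
    rw [mem_range] at hi
    have h5 : (i + 1) * B ≤ k * B := Nat.mul_le_mul_right _ hi
    have h6 : (i + 1) * B = i * B + B := by ring
    exact HF b (by omega) B C (a0 + i * B) c0 (by omega) hC hBC (Or.inl hfl) (by omega) (by omega) hc0
  have hsl' : ∑ i ∈ range k, (((Ico (a0 + i * B) (a0 + i * B + B) ×ˢ Ico c0 (c0 + C)).filter (fun w : ℕ × ℕ => Good b w.1 w.2)).card : ℝ) ≤
      (((Ico a0 (a0 + A) ×ˢ Ico c0 (c0 + C)).filter (fun w : ℕ × ℕ => Good b w.1 w.2)).card : ℝ) := by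
    exact_mod_cast hsl
  refine le_trans ?_ (hsum.trans hsl')
  rw [sum_const, card_range, nsmul_eq_mul]
  have hkB2' : (A : ℝ) ≤ 2 * (k * B) := by exact_mod_cast hkB2
  rw [← mul_div_assoc]
  apply div_le_div_of_nonneg_right _ hlb.le
  have := mul_le_mul_of_nonneg_left hkB2' (show 0 ≤ c / 2 * (C : ℝ) by positivity)
  nlinarith

end Pool.Agent.Zk41.TD
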