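import Pool.Agent.Zk41.TD.FA
import Pool.Agent.Zk41.LS.F
import Pool.Agent.Zk41.CL.G
import Pool.Agent.W93.LV2

/-!
Zk41/TD (helper41): narrow progressions in dense sets of three-digit palindromes with at most two prime factors.
-/

set_option autoImplicit false

open Finset Filter

namespace Pool.Agent.Zk41.TD

open Pool.Agent.K3h19.RV (Lam)
open Pool.Agent.Zk41.LS (Fab Adm dvd_Fab lin)
open Pool.Agent.Y677.RSZ (rt V ev_log)

open ArithmeticFunction in
theorem cop_ind (f N : ℕ) (hN : 1 ≤ N) : (if Nat.Coprime f N then (1 : ℤ) else 0) =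
    ∑ d ∈ N.divisors, if d ∣ f then moebius d else 0 := by
  have h1 : ∑ d ∈ (Nat.gcd f N).divisors, (moebius d : ℤ) = if Nat.gcd f N = 1 then 1 else 0 := by
    have := DFunLike.congr_fun moebius_mul_coe_zeta (Nat.gcd f N)
    rw [coe_mul_zeta_apply, one_apply] at this
    exact this
  have h2 : (Nat.gcd f N).divisors = N.divisors.filter (fun d => d ∣ f) := by
    ext d
    simp only [Nat.mem_divisors, mem_filter, Nat.dvd_gcd_iff, ne_eq, Nat.gcd_eq_zero_iff]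
    constructor
    · rintro ⟨⟨h, h'⟩, -⟩
      exact ⟨⟨h', by omega⟩, h⟩
    · rintro ⟨⟨h, h'⟩, h''⟩
      exact ⟨⟨h'', h⟩, fun hh => h' hh.2⟩
  rw [← sum_filter, ← h2, h1]

lemma dvd_cnt (a0 A d : ℕ) (ha : 1 ≤ a0) (hd : 0 < d) :
    |(((Ico a0 (a0 + A)).filter (fun a => d ∣ a)).card : ℝ) - (A : ℝ) / d| ≤ 1 := by
  have hd0 : (0 : ℝ) < d := by exact_mod_cast hd
  have h2 : (Ioc 0 (a0 - 1 + A)).filter (fun a => d ∣ a) =
      (Ioc 0 (a0 - 1)).filter (fun a => d ∣ a) ∪ (Ico a0 (a0 + A)).filter (fun a => d ∣ a) := by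
    ext x
    simp only [mem_union, mem_filter, mem_Ioc, mem_Ico]
    constructor
    · rintro ⟨h3, h4⟩
      rcases Nat.lt_or_ge x a0 with h5 | h5
      · exact Or.inl ⟨by omega, h4⟩
      · exact Or.inr ⟨by omega, h4⟩
    · rintro (⟨h3, h4⟩ | ⟨h3, h4⟩)
      · exact ⟨by omega, h4⟩
      · exact ⟨by omega, h4⟩
  have h3 : ((Ioc 0 (a0 - 1 + A)).filter (fun a => d ∣ a)).card =
      ((Ioc 0 (a0 - 1)).filter (fun a => d ∣ a)).card + ((Ico a0 (a0 + A)).filter (fun a => d ∣ a)).card := by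
    rw [h2, card_union_of_disjoint]
    rw [Finset.disjoint_left]
    intro x hx hx'
    simp only [mem_filter, mem_Ioc, mem_Ico] at hx hx'
    omega
  rw [Nat.Ioc_filter_dvd_card_eq_div, Nat.Ioc_filter_dvd_card_eq_div] at h3
  have g : ∀ n : ℕ, (n : ℝ) / d - 1 < ((n / d : ℕ) : ℝ) ∧ ((n / d : ℕ) : ℝ) ≤ (n : ℝ) / d := by
    intro n
    refine ⟨?_, Nat.cast_div_le⟩
    rw [sub_lt_iff_lt_add, div_lt_iff₀ hd0]
    have := Nat.lt_div_mul_add (a := n) hd
    have h4 : (n : ℝ) < ((n / d : ℕ) : ℝ) * d + d := by exact_mod_cast this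
    linarith
  have g1 := g (a0 - 1 + A)
  have g2 := g (a0 - 1)
  have h4 : (((a0 - 1 + A) / d : ℕ) : ℝ) = (((a0 - 1) / d : ℕ) : ℝ) + (((Ico a0 (a0 + A)).filter (fun a => d ∣ a)).card : ℝ) := by
    exact_mod_cast h3
  have h5 : ((a0 - 1 + A : ℕ) : ℝ) / d = ((a0 - 1 : ℕ) : ℝ) / d + A / d := by
    rw [Nat.cast_add]; ring
  rw [h5] at g1
  rw [abs_le]
  constructor <;> linarith [g1.1, g1.2, g2.1, g2.2]

theorem cop_up (b a0 A : ℕ) (hb : 1 ≤ b) (ha : 1 ≤ a0) :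
    (((Ico a0 (a0 + A)).filter (fun a => Nat.Coprime a b)).card : ℝ) ≤ A * (Nat.totient b / b) + b.divisors.card := by
  have hb0 : (0 : ℝ) < b := by exact_mod_cast hb
  have e1 : ∀ s t : ℕ, (((Ico s (s + t)).filter (fun a => Nat.Coprime a b)).card : ℤ) =
      ∑ d ∈ b.divisors, ArithmeticFunction.moebius d * (((Ico s (s + t)).filter (fun a => d ∣ a)).card : ℤ) := by
    intro s t
    rw [card_filter, Nat.cast_sum]
    simp only [Nat.cast_ite, Nat.cast_one, Nat.cast_zero]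
    rw [sum_congr rfl (fun f _ => cop_ind f b hb), sum_comm]
    refine sum_congr rfl fun d _ => ?_
    rw [← sum_filter, sum_const, nsmul_eq_mul, mul_comm]
  have e2 : ∀ s t : ℕ, (((Ico s (s + t)).filter (fun a => Nat.Coprime a b)).card : ℝ) =
      ∑ d ∈ b.divisors, (ArithmeticFunction.moebius d : ℝ) * (((Ico s (s + t)).filter (fun a => d ∣ a)).card : ℝ) := by
    intro s t
    rw [← Int.cast_natCast, e1 s t, Int.cast_sum]
    exact sum_congr rfl fun d _ => by rw [Int.cast_mul, Int.cast_natCast]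
  have hmu : ∀ d : ℕ, |(ArithmeticFunction.moebius d : ℝ)| ≤ 1 := by
    intro d
    exact_mod_cast ArithmeticFunction.abs_moebius_le_one (n := d)
  -- the totient
  have e3 : (Nat.totient b : ℝ) = ∑ d ∈ b.divisors, (ArithmeticFunction.moebius d : ℝ) * ((b : ℝ) / d) := by
    have h := e2 1 b
    have h0 : ((Ico 1 (1 + b)).filter (fun a => Nat.Coprime a b)).card = Nat.totient b := by
      rw [← Nat.filter_coprime_Ico_eq_totient b 1]
      congr 1
      ext x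
      simp only [mem_filter, mem_Ico, Nat.coprime_comm]
    rw [h0] at h
    rw [h]
    refine sum_congr rfl fun d hd => ?_
    have hd' := Nat.mem_divisors.1 hd
    have hdp : 0 < d := Nat.pos_of_dvd_of_pos hd'.1 (by omega)
    congr 1
    have h5 : ((Ico 1 (1 + b)).filter (fun a => d ∣ a)).card = b / d := by
      have : Ico 1 (1 + b) = Ioc 0 b := by ext x; simp only [mem_Ico, mem_Ioc]; omega
      rw [this, Nat.Ioc_filter_dvd_card_eq_div]
    rw [h5, Nat.cast_div hd'.1 (by exact_mod_cast hdp.ne')]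
  rw [e2]
  have e4 : (A : ℝ) * (Nat.totient b / b) = ∑ d ∈ b.divisors, (ArithmeticFunction.moebius d : ℝ) * ((A : ℝ) / d) := by
    rw [e3, sum_div, mul_sum]
    refine sum_congr rfl fun d _ => ?_
    field_simp
  rw [e4, ← sub_le_iff_le_add', ← sum_sub_distrib]
  calc _ ≤ ∑ d ∈ b.divisors, (1 : ℝ) := by
        apply sum_le_sum
        intro d hd
        have hdp : 0 < d := Nat.pos_of_mem_divisors hd
        rw [← mul_sub]
        refine (le_abs_self _).trans ?_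
        rw [abs_mul]
        calc _ ≤ 1 * 1 := mul_le_mul (hmu d) (dvd_cnt a0 A d ha hdp) (abs_nonneg _) zero_le_one
          _ = 1 := one_mul _
    _ = _ := by simp


/-- the form `c ↦ b c + a (b^2+1)` -/
lemma fab1 (b k : ℕ) : Fab (![(b : ℤ)] : Fin 1 → ℤ) ![(k : ℤ)] = Pool.Agent.Zk41.CL.Fa b k := by
  funext x
  unfold Fab Pool.Agent.Zk41.CL.Fa
  simp

open Classical in
/-- the fibres of a set without progressions -/
lemma fibre (m H0 B : ℕ) (ε : ℝ) (hlin : ∀ H : ℕ, H0 ≤ H →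
    ∀ (a b : Fin 1 → ℤ) (Y : ℕ), Adm a b → (∀ i, a i ≠ 0) → (∀ i, |a i| ≤ (H : ℤ) ^ 8 ∧ |b i| ≤ (H : ℤ) ^ 8) →
    Y ≤ H ^ 8 → (∀ n ∈ Ioc Y (Y + H), Fab a b (n : ℤ) ≠ 0) → ∀ A : Finset ℕ, A ⊆ Ioc Y (Y + H) →
    (∀ n ∈ A, ∀ p : ℕ, p.Prime → (p : ℝ) ≤ (H : ℝ) ^ (1 / 5 : ℝ) → ¬ (p : ℤ) ∣ Fab a b (n : ℤ)) →
    ε * (H * V (Fab a b) 1 H) ≤ A.card →
    ∃ x d : ℕ, 1 ≤ d ∧ (d : ℝ) ≤ Real.log H ^ B ∧ ∀ i < m, x + i * d ∈ A) (hε : 0 < ε)
    (b A C a0 c0 : ℕ) (hb : 3 ≤ b) (hC : H0 + 2 ≤ C) (hC5 : 2 * b ^ 3 ≤ C ^ 8) (ha : a0 + A ≤ b) (hc : c0 + C ≤ b)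
    (ha0 : 1 ≤ a0) (S : Finset (ℕ × ℕ))
    (hS : S ⊆ (Ico a0 (a0 + A) ×ˢ Ico c0 (c0 + C)).filter (fun w : ℕ × ℕ => Good b w.1 w.2))
    (hcon : ¬ ∃ a c d : ℕ, 1 ≤ d ∧ (d : ℝ) ≤ Real.log b ^ B ∧ ∀ i < m, (a, c + i * d) ∈ S)
    (a : ℕ) (haI : a ∈ Ico a0 (a0 + A)) (hcop : Nat.Coprime a b) :
    ((S.filter (fun z => z.1 = a)).card : ℝ) ≤ ε * (C * (((b : ℝ) / Nat.totient b) / Real.log C)) + 1 := by
  rw [mem_Ico] at haI
  obtain ⟨Sa, hSa⟩ : ∃ Sa : Finset ℕ, Sa = ((S.filter (fun z => z.1 = a)).image Prod.snd).erase c0 := ⟨_, rfl⟩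
  have hmem : ∀ c, c ∈ Sa ↔ c ≠ c0 ∧ (a, c) ∈ S := by
    intro c
    rw [hSa, mem_erase, mem_image]
    constructor
    · rintro ⟨h1, z, hz, rfl⟩
      rw [mem_filter] at hz
      refine ⟨h1, ?_⟩
      rw [← hz.2]
      exact hz.1
    · rintro ⟨h1, h2⟩
      exact ⟨h1, (a, c), mem_filter.2 ⟨h2, rfl⟩, rfl⟩
  have hcard : (S.filter (fun z => z.1 = a)).card ≤ Sa.card + 1 := by
    have h1 : ((S.filter (fun z => z.1 = a)).image Prod.snd).card = (S.filter (fun z => z.1 = a)).card := by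
      apply card_image_of_injOn
      intro z hz z' hz' e
      rw [mem_coe, mem_filter] at hz hz'
      exact Prod.ext (hz.2.trans hz'.2.symm) e
    rw [← h1, hSa]
    have := pred_card_le_card_erase (s := ((S.filter (fun z => z.1 = a)).image Prod.snd)) (a := c0)
    omega
  have hbC : b ^ 3 ≤ C ^ 8 := by omega
  have hSb : ∀ c, (a, c) ∈ S → c0 ≤ c ∧ c < c0 + C ∧ Good b a c := by
    intro c h
    have := hS h
    rw [mem_filter, mem_product, mem_Ico, mem_Ico] at this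
    exact ⟨this.1.2.1, this.1.2.2, this.2⟩
  have hCr : (1 : ℝ) < C := by exact_mod_cast (by omega : 1 < C)
  have hCb : (C : ℝ) ≤ b := by exact_mod_cast (by omega : C ≤ b)
  have key : (Sa.card : ℝ) < ε * (C * V (Fab (![(b : ℤ)] : Fin 1 → ℤ) ![((a * (b ^ 2 + 1) : ℕ) : ℤ)]) 1 C) := by
    by_contra hge
    push Not at hge
    obtain ⟨x, d, hd1, hd2, hd3⟩ := hlin C (by omega) ![(b : ℤ)] ![((a * (b ^ 2 + 1) : ℕ) : ℤ)] c0 (by
      intro p hp
      by_contra h
      push Not at h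
      have h0 := h 0
      have h1 := h 1
      rw [dvd_Fab hp] at h0 h1
      obtain ⟨i, hi⟩ := h0
      obtain ⟨j, hj⟩ := h1
      have hi0 : i = 0 := Subsingleton.elim _ _
      have hj0 : j = 0 := Subsingleton.elim _ _
      rw [hi0] at hi
      rw [hj0] at hj
      simp only [Matrix.cons_val_fin_one, mul_zero, zero_add, mul_one] at hi hj
      have h2 : (p : ℤ) ∣ (b : ℤ) := by
        have := dvd_sub hj hi
        simpa using this
      have h3 : p ∣ b := Int.natCast_dvd_natCast.1 h2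
      have h4 : p ∣ a * (b ^ 2 + 1) := Int.natCast_dvd_natCast.1 hi
      rcases (hp.dvd_mul).1 h4 with h5 | h5
      · have := Nat.dvd_gcd h5 h3
        rw [hcop] at this
        exact hp.one_lt.ne' (Nat.dvd_one.1 this)
      · have h6 : p ∣ b ^ 2 := h3.trans (dvd_pow_self b two_ne_zero)
        have h7 := (Nat.dvd_add_right h6).1 h5
        exact hp.one_lt.ne' (Nat.dvd_one.1 h7)) (by
      intro i
      simp only [Matrix.cons_val_fin_one]
      exact_mod_cast (by omega : b ≠ 0)) (by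
      intro i
      simp only [Matrix.cons_val_fin_one]
      have h1 : b ≤ b ^ 3 := Nat.le_self_pow (by norm_num) b
      have h2 : a * (b ^ 2 + 1) ≤ C ^ 8 := by
        have := pal_le b a 0 hb (by omega) (by omega)
        unfold pal at this
        omega
      constructor
      · rw [abs_of_nonneg (by positivity)]
        exact_mod_cast h1.trans hbC
      · rw [abs_of_nonneg (by positivity)]
        exact_mod_cast h2) (by
      have h1 : b ≤ b ^ 3 := Nat.le_self_pow (by norm_num) b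
      omega) (by
      intro n hn
      rw [fab1]
      unfold Pool.Agent.Zk41.CL.Fa
      have : 0 < a * (b ^ 2 + 1) := Nat.mul_pos (by omega) (by positivity)
      have h2 : (0 : ℤ) < ((a * (b ^ 2 + 1) : ℕ) : ℤ) := by exact_mod_cast this
      have h3 : (0 : ℤ) ≤ (b : ℤ) * (n : ℤ) := by positivity
      exact ne_of_gt (by linarith)) Sa (by
      intro c hc'
      obtain ⟨h1, h2⟩ := (hmem c).1 hc'
      obtain ⟨h3, h4, _⟩ := hSb c h2
      rw [mem_Ioc]
      omega) (by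
      intro c hc' p hp hpH hpd
      obtain ⟨h1, h2⟩ := (hmem c).1 hc'
      obtain ⟨_, _, h5⟩ := hSb c h2
      rw [fab1] at hpd
      unfold Pool.Agent.Zk41.CL.Fa at hpd
      have h6 : p ∣ pal b a c := by
        have e : (b : ℤ) * (c : ℤ) + ((a * (b ^ 2 + 1) : ℕ) : ℤ) = ((pal b a c : ℕ) : ℤ) := by
          unfold pal; push_cast; ring
        rw [e] at hpd
        exact Int.natCast_dvd_natCast.1 hpd
      have h7 := h5.2 p hp h6
      have h8 : (C : ℝ) ^ (1 / 5 : ℝ) < (b : ℝ) ^ (2 / 5 : ℝ) := by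
        calc (C : ℝ) ^ (1 / 5 : ℝ) < (C : ℝ) ^ (2 / 5 : ℝ) := Real.rpow_lt_rpow_of_exponent_lt hCr (by norm_num)
          _ ≤ _ := Real.rpow_le_rpow (by positivity) hCb (by norm_num)
      linarith) hge
    apply hcon
    refine ⟨a, x, d, hd1, hd2.trans ?_, fun i hi => ((hmem _).1 (hd3 i hi)).2⟩
    exact pow_le_pow_left₀ (Real.log_nonneg hCr.le) (Real.log_le_log (by linarith) hCb) B
  rw [fab1] at key
  have hV := Pool.Agent.Zk41.CL.V_le (a := b) (b := a * (b ^ 2 + 1)) (by omega) C (by omega)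
  have h1 : ε * (C * V (Pool.Agent.Zk41.CL.Fa b (a * (b ^ 2 + 1))) 1 C) ≤ ε * (C * (((b : ℝ) / Nat.totient b) / Real.log C)) := by
    gcongr
  have h2 : ((S.filter (fun z => z.1 = a)).card : ℝ) ≤ Sa.card + 1 := by exact_mod_cast hcard
  linarith

open Classical in
/-- the pairs whose first entry has a large common prime factor with `b` -/
lemma big_card (b a0 A : ℕ) (hb : 1 ≤ b) (ha0 : 1 ≤ a0) (y : ℝ) (hy : 0 < y) :
    (((Ico a0 (a0 + A)).filter (fun a => ∃ p ∈ b.primeFactors, y ≤ p ∧ p ∣ a)).card : ℝ) ≤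
      b.divisors.card * (A / y + 1) := by
  have h1 : ((Ico a0 (a0 + A)).filter (fun a => ∃ p ∈ b.primeFactors, y ≤ p ∧ p ∣ a)).card ≤
      ∑ p ∈ b.primeFactors.filter (fun p : ℕ => y ≤ (p : ℝ)), ((Ico a0 (a0 + A)).filter (fun a => p ∣ a)).card := by
    refine (card_le_card (t := (b.primeFactors.filter (fun p : ℕ => y ≤ (p : ℝ))).biUnion
      (fun p => (Ico a0 (a0 + A)).filter (fun a => p ∣ a))) ?_).trans card_biUnion_le
    intro a ha
    rw [mem_filter] at ha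
    obtain ⟨h1, p, hp, hyp, hpa⟩ := ha
    rw [mem_biUnion]
    exact ⟨p, mem_filter.2 ⟨hp, hyp⟩, mem_filter.2 ⟨h1, hpa⟩⟩
  have hA : (0 : ℝ) ≤ A := Nat.cast_nonneg _
  calc (((Ico a0 (a0 + A)).filter (fun a => ∃ p ∈ b.primeFactors, y ≤ p ∧ p ∣ a)).card : ℝ)
      ≤ ∑ p ∈ b.primeFactors.filter (fun p : ℕ => y ≤ (p : ℝ)), (((Ico a0 (a0 + A)).filter (fun a => p ∣ a)).card : ℝ) := by
        exact_mod_cast h1
    _ ≤ ∑ p ∈ b.primeFactors.filter (fun p : ℕ => y ≤ (p : ℝ)), (A / y + 1) := by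
        apply sum_le_sum
        intro p hp
        rw [mem_filter] at hp
        have hpp := (Nat.mem_primeFactors.1 hp.1).1.pos
        have h2 := (abs_le.1 (dvd_cnt a0 A p ha0 hpp)).2
        have h3 : (A : ℝ) / p ≤ A / y := div_le_div_of_nonneg_left hA hy hp.2
        linarith
    _ = (b.primeFactors.filter (fun p : ℕ => y ≤ (p : ℝ))).card * (A / y + 1) := by rw [sum_const, nsmul_eq_mul]
    _ ≤ _ := by
        apply mul_le_mul_of_nonneg_right _ (by positivity)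
        have h4 : (b.primeFactors.filter (fun p : ℕ => y ≤ (p : ℝ))).card ≤ b.divisors.card := by
          apply card_le_card
          intro p hp
          rw [mem_filter, Nat.mem_primeFactors] at hp
          rw [Nat.mem_divisors]
          exact ⟨hp.1.2.1, by omega⟩
        exact_mod_cast h4

open Classical in
/-- **Narrow progressions.** -/
theorem narrow (θ : ℝ) (hθ : 3 / Lam 2 < θ) (m : ℕ) (ε : ℝ) (hε : 0 < ε) :
    ∃ B b1 : ℕ, ∀ b : ℕ, b1 ≤ b → ∀ A C a0 c0 : ℕ, (b : ℝ) ^ θ ≤ A * C → 1 ≤ a0 → a0 + A ≤ b → c0 + C ≤ b →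
      ∀ S ⊆ (Ico a0 (a0 + A) ×ˢ Ico c0 (c0 + C)).filter (fun w : ℕ × ℕ => Good b w.1 w.2),
        ε * (A * C) / Real.log b ≤ S.card →
        ∃ a c d : ℕ, 1 ≤ d ∧ (d : ℝ) ≤ Real.log b ^ B ∧ ∀ i < m, (a, c + i * d) ∈ S := by
  have hl2 := lam2_hi
  have hl1 := lam2_lo
  have hl0 : 0 < Lam 2 := by linarith
  have h85 : (8 / 5 : ℝ) ≤ 3 / Lam 2 := by rw [le_div_iff₀ hl0]; linarith
  obtain ⟨B, H0, hlin⟩ := lin 1 m 8 (1 / 5) (ε / 4) (by norm_num) (by positivity)
  obtain ⟨K, hK, hdiv⟩ := Pool.Agent.H510R2.divisor_bound (1 / 40) (by norm_num)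
  obtain ⟨M, hM⟩ : ∃ M : ℝ, M = 1 + ε / 4 * K ^ 2 + 3 * K := ⟨_, rfl⟩
  have hM0 : 0 < M := by rw [hM]; positivity
  have hcast : Tendsto (fun b : ℕ => (b : ℝ)) atTop atTop := tendsto_natCast_atTop_atTop
  have v1 : ∀ᶠ b : ℕ in atTop, (H0 : ℝ) + 4 ≤ (b : ℝ) ^ (3 / 5 : ℝ) :=
    ((tendsto_rpow_atTop (by norm_num)).comp hcast).eventually_ge_atTop _
  have v2 := ev_log 1 (2 * M / ε) (1 / 4) (by norm_num)
  have v3 : ∀ᶠ b : ℕ in atTop, (2 : ℝ) ≤ (b : ℝ) ^ (3 / 5 : ℝ) :=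
    ((tendsto_rpow_atTop (by norm_num)).comp hcast).eventually_ge_atTop _
  have v4 := ev_log 1 1 1 one_pos
  obtain ⟨b1, hb1⟩ := eventually_atTop.1 (v1.and (v2.and v3))
  refine ⟨B, b1 + 9, fun b hb A C a0 c0 hAC ha0 ha hc S hS hSc => ?_⟩
  by_contra hcon
  obtain ⟨w1, w2, w3⟩ := hb1 b (by omega)
  have hbr : (9 : ℝ) ≤ b := by exact_mod_cast (by omega : 9 ≤ b)
  have hb0 : (0 : ℝ) < b := by linarith
  have hb1' : (1 : ℝ) ≤ b := by linarith
  have hAr : (A : ℝ) ≤ b := by exact_mod_cast (by omega : A ≤ b)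
  have hCr : (C : ℝ) ≤ b := by exact_mod_cast (by omega : C ≤ b)
  have hA0 : (0 : ℝ) ≤ A := Nat.cast_nonneg _
  have hC0 : (0 : ℝ) ≤ C := Nat.cast_nonneg _
  have hL : 5 / 3 ≤ Real.log b := by
    rw [Real.le_log_iff_exp_le hb0]
    have h1 : Real.exp (5 / 3) ≤ Real.exp 1 * Real.exp 1 := by
      rw [← Real.exp_add]
      exact Real.exp_le_exp.2 (by norm_num)
    have h2 := Real.exp_one_lt_d9
    have h3 := Real.exp_pos 1
    nlinarith
  have hL0 : 0 < Real.log b := by linarith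
  have h85' : (b : ℝ) ^ (8 / 5 : ℝ) = b * (b : ℝ) ^ (3 / 5 : ℝ) := by
    rw [show (8 / 5 : ℝ) = 1 + 3 / 5 by norm_num, Real.rpow_add hb0, Real.rpow_one]
  have h85b : b * (b : ℝ) ^ (3 / 5 : ℝ) ≤ A * C := by
    rw [← h85']
    exact (Real.rpow_le_rpow_of_exponent_le hb1' (by linarith)).trans hAC
  have hC35 : (b : ℝ) ^ (3 / 5 : ℝ) ≤ C :=
    le_of_mul_le_mul_left (h85b.trans (mul_le_mul_of_nonneg_right hAr hC0)) hb0
  have hA35 : (b : ℝ) ^ (3 / 5 : ℝ) ≤ A := by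
    have h1 : (A : ℝ) * C ≤ b * A := by rw [mul_comm (b : ℝ)]; exact mul_le_mul_of_nonneg_left hCr hA0
    exact le_of_mul_le_mul_left (h85b.trans h1) hb0
  have hCH : H0 + 2 ≤ C := by
    have : (H0 : ℝ) + 2 ≤ C := by linarith
    exact_mod_cast this
  have hC8 : 2 * b ^ 3 ≤ C ^ 8 := by
    have h1 : 2 * (b : ℝ) ^ 3 ≤ (C : ℝ) ^ 8 := by
      calc 2 * (b : ℝ) ^ 3 ≤ (b : ℝ) ^ (3 / 5 : ℝ) * (b : ℝ) ^ 3 := mul_le_mul_of_nonneg_right w3 (by positivity)
        _ = (b : ℝ) ^ (18 / 5 : ℝ) := by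
            rw [← Real.rpow_natCast (b : ℝ) 3, ← Real.rpow_add hb0]
            norm_num
        _ ≤ (b : ℝ) ^ (24 / 5 : ℝ) := Real.rpow_le_rpow_of_exponent_le hb1' (by norm_num)
        _ = ((b : ℝ) ^ (3 / 5 : ℝ)) ^ 8 := by
            rw [← Real.rpow_natCast ((b : ℝ) ^ (3 / 5 : ℝ)) 8, ← Real.rpow_mul hb0.le]
            norm_num
        _ ≤ _ := pow_le_pow_left₀ (by positivity) hC35 8
    exact_mod_cast h1
  have hlC : 3 / 5 * Real.log b ≤ Real.log C := by
    have h1 : Real.log ((b : ℝ) ^ (3 / 5 : ℝ)) ≤ Real.log C := Real.log_le_log (by positivity) hC35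
    rwa [Real.log_rpow hb0] at h1
  have hlC1 : 1 ≤ Real.log C := by linarith
  have hlC0 : 0 < Real.log C := by linarith
  -- the number of divisors
  obtain ⟨t, ht⟩ : ∃ t : ℝ, t = (b.divisors.card : ℝ) := ⟨_, rfl⟩
  have ht0 : 0 ≤ t := by rw [ht]; exact Nat.cast_nonneg _
  have htK : t ≤ K * (b : ℝ) ^ (1 / 40 : ℝ) := by rw [ht]; exact hdiv b (by omega)
  have hφ0 : (0 : ℝ) < Nat.totient b := by exact_mod_cast Nat.totient_pos.2 (by omega)
  have hφt : (b : ℝ) / Nat.totient b ≤ t := by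
    have h1 := Pool.Agent.W93.LV.inv_phi_le b (by omega)
    rw [← ht] at h1
    have h2 := mul_le_mul_of_nonneg_left h1 hb0.le
    have h3 : (b : ℝ) * (t / b) = t := by field_simp
    have h4 : (b : ℝ) * (1 / (Nat.totient b : ℝ)) = b / Nat.totient b := by ring
    rw [h3, h4] at h2
    exact h2
  have hφb : (Nat.totient b : ℝ) / b ≤ 1 := by
    rw [div_le_one hb0]
    exact_mod_cast Nat.totient_le b
  -- the fibres
  obtain ⟨X, hX⟩ : ∃ X : ℝ, X = ε / 4 * (C * (((b : ℝ) / Nat.totient b) / Real.log C)) + 1 := ⟨_, rfl⟩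
  have hX0 : 0 ≤ X := by rw [hX]; positivity
  have hfib : ∀ a ∈ Ico a0 (a0 + A), ((S.filter (fun z => z.1 = a)).card : ℝ) ≤
      (if Nat.Coprime a b then X else 0) + (if (∃ p ∈ b.primeFactors, (b : ℝ) ^ (2 / 5 : ℝ) ≤ p ∧ p ∣ a) then (C : ℝ) else 0) := by
    intro a haI
    by_cases hcop : Nat.Coprime a b
    · rw [if_pos hcop]
      have h1 := fibre m H0 B (ε / 4) hlin (by positivity) b A C a0 c0 (by omega) hCH hC8 ha hc ha0 S hS hcon a haI hcop
      rw [← hX] at h1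
      have h2 : (0 : ℝ) ≤ if (∃ p ∈ b.primeFactors, (b : ℝ) ^ (2 / 5 : ℝ) ≤ p ∧ p ∣ a) then (C : ℝ) else 0 := by
        split_ifs <;> simp
      linarith
    · rw [if_neg hcop, zero_add]
      have hsub : (S.filter (fun z => z.1 = a)).card ≤ C := by
        have h1 : (S.filter (fun z => z.1 = a)).card ≤ (Ico c0 (c0 + C)).card := by
          apply card_le_card_of_injOn Prod.snd
          · intro z hz
            rw [mem_coe, mem_filter] at hz
            have := hS hz.1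
            rw [mem_filter, mem_product] at this
            exact this.1.2
          · intro z hz z' hz' e
            rw [mem_coe, mem_filter] at hz hz'
            exact Prod.ext (hz.2.trans hz'.2.symm) e
        simpa using h1
      split_ifs with h
      · exact_mod_cast hsub
      · have hemp : S.filter (fun z => z.1 = a) = ∅ := by
          rw [filter_eq_empty_iff]
          rintro z hz rfl
          apply h
          have hz2 := hS hz
          rw [mem_filter] at hz2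
          obtain ⟨p, hp, hpd⟩ := Nat.exists_prime_and_dvd hcop
          have h3 : p ∣ z.1 := hpd.trans (Nat.gcd_dvd_left _ _)
          have h4 : p ∣ b := hpd.trans (Nat.gcd_dvd_right _ _)
          refine ⟨p, Nat.mem_primeFactors.2 ⟨hp, h4, by omega⟩, hz2.2.2 p hp ?_, h3⟩
          unfold pal
          exact dvd_add (h3.mul_right _) (h4.mul_left _)
        rw [hemp]
        simp
  have hfibsum : (S.card : ℝ) = ∑ a ∈ Ico a0 (a0 + A), ((S.filter (fun z => z.1 = a)).card : ℝ) := by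
    have h1 : S.card = ∑ a ∈ Ico a0 (a0 + A), (S.filter (fun z => z.1 = a)).card := by
      apply card_eq_sum_card_fiberwise
      intro z hz
      have := hS hz
      rw [mem_filter, mem_product] at this
      exact this.1.1
    exact_mod_cast h1
  have htot : (S.card : ℝ) ≤ (A * (Nat.totient b / b) + t) * X + t * (A / (b : ℝ) ^ (2 / 5 : ℝ) + 1) * C := by
    rw [hfibsum]
    refine (sum_le_sum hfib).trans ?_
    rw [sum_add_distrib, ← sum_filter, ← sum_filter, sum_const, sum_const, nsmul_eq_mul, nsmul_eq_mul]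
    have h1 := cop_up b a0 A (by omega) ha0
    have h2 := big_card b a0 A (by omega) ha0 ((b : ℝ) ^ (2 / 5 : ℝ)) (by positivity)
    rw [← ht] at h1 h2
    exact add_le_add (mul_le_mul_of_nonneg_right h1 hX0) (mul_le_mul_of_nonneg_right h2 hC0)
  -- the main term
  have hAC0 : 0 ≤ (A : ℝ) * C := by positivity
  have hmain : A * ((Nat.totient b : ℝ) / b) * (ε / 4 * (C * (((b : ℝ) / Nat.totient b) / Real.log C))) ≤
      5 / 12 * (ε * (A * C) / Real.log b) := by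
    have e1 : A * ((Nat.totient b : ℝ) / b) * (ε / 4 * (C * (((b : ℝ) / Nat.totient b) / Real.log C))) =
        ε / 4 * (A * C) / Real.log C := by
      field_simp
    rw [e1, div_le_iff₀ hlC0]
    have h1 : 5 / 12 * (ε * (A * C) / Real.log b) * (3 / 5 * Real.log b) ≤ 5 / 12 * (ε * (A * C) / Real.log b) * Real.log C :=
      mul_le_mul_of_nonneg_left hlC (by positivity)
    have e2 : 5 / 12 * (ε * ((A : ℝ) * C) / Real.log b) * (3 / 5 * Real.log b) = ε / 4 * (A * C) := by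
      field_simp
      ring
    linarith
  have hXt : t * (ε / 4 * (C * (((b : ℝ) / Nat.totient b) / Real.log C))) ≤ ε / 4 * (t ^ 2 * C) := by
    have h1 : ((b : ℝ) / Nat.totient b) / Real.log C ≤ t := by
      rw [div_le_iff₀ hlC0]
      nlinarith
    calc t * (ε / 4 * (C * (((b : ℝ) / Nat.totient b) / Real.log C))) ≤ t * (ε / 4 * (C * t)) := by gcongr
      _ = _ := by ring
  have htot2 : (S.card : ℝ) ≤ 5 / 12 * (ε * (A * C) / Real.log b) + A + ε / 4 * (t ^ 2 * C) + t +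
      (t * (A / (b : ℝ) ^ (2 / 5 : ℝ)) * C + t * C) := by
    have h1 : A * ((Nat.totient b : ℝ) / b) ≤ A := by nlinarith
    have e1 : (A * ((Nat.totient b : ℝ) / b) + t) * X = A * ((Nat.totient b : ℝ) / b) * (ε / 4 * (C * (((b : ℝ) / Nat.totient b) / Real.log C))) +
        A * ((Nat.totient b : ℝ) / b) + t * (ε / 4 * (C * (((b : ℝ) / Nat.totient b) / Real.log C))) + t := by
      rw [hX]; ring
    have e2 : t * (A / (b : ℝ) ^ (2 / 5 : ℝ) + 1) * C = t * (A / (b : ℝ) ^ (2 / 5 : ℝ)) * C + t * C := by ring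
    rw [e1, e2] at htot
    linarith
  -- the small terms, multiplied by `b^(1/4)`
  obtain ⟨y, hy⟩ : ∃ y : ℝ, y = (b : ℝ) ^ (1 / 4 : ℝ) := ⟨_, rfl⟩
  have hy0 : 0 < y := by rw [hy]; positivity
  have hy1 : 1 ≤ y := by rw [hy]; exact Real.one_le_rpow hb1' (by norm_num)
  have hzz : ∀ e : ℝ, e ≤ 3 / 5 - 1 / 4 → (b : ℝ) ^ e * y ≤ (b : ℝ) ^ (3 / 5 : ℝ) := by
    intro e he
    rw [hy, ← Real.rpow_add hb0]
    exact Real.rpow_le_rpow_of_exponent_le hb1' (by linarith)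
  have hP40 : 0 < (b : ℝ) ^ (1 / 40 : ℝ) := by positivity
  have x1 : (A : ℝ) * y ≤ A * C := by
    have h1 := hzz 0 (by norm_num)
    rw [Real.rpow_zero, one_mul] at h1
    exact mul_le_mul_of_nonneg_left (h1.trans hC35) hA0
  have ht2 : t ^ 2 ≤ K ^ 2 * (b : ℝ) ^ (1 / 20 : ℝ) := by
    calc t ^ 2 ≤ (K * (b : ℝ) ^ (1 / 40 : ℝ)) ^ 2 := pow_le_pow_left₀ ht0 htK 2
      _ = _ := by
          rw [mul_pow, ← Real.rpow_natCast ((b : ℝ) ^ (1 / 40 : ℝ)) 2, ← Real.rpow_mul hb0.le]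
          norm_num
  have x2 : ε / 4 * (t ^ 2 * C) * y ≤ ε / 4 * K ^ 2 * (A * C) := by
    have h1 := hzz (1 / 20) (by norm_num)
    calc ε / 4 * (t ^ 2 * C) * y ≤ ε / 4 * ((K ^ 2 * (b : ℝ) ^ (1 / 20 : ℝ)) * C) * y := by gcongr
      _ = ε / 4 * K ^ 2 * C * ((b : ℝ) ^ (1 / 20 : ℝ) * y) := by ring
      _ ≤ ε / 4 * K ^ 2 * C * A := mul_le_mul_of_nonneg_left (h1.trans hA35) (by positivity)
      _ = _ := by ring
  have htC : t * y ≤ K * A := by
    have h1 := hzz (1 / 40) (by norm_num)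
    calc t * y ≤ (K * (b : ℝ) ^ (1 / 40 : ℝ)) * y := by gcongr
      _ = K * ((b : ℝ) ^ (1 / 40 : ℝ) * y) := by ring
      _ ≤ K * A := mul_le_mul_of_nonneg_left (h1.trans hA35) hK.le
  have hC1 : (1 : ℝ) ≤ C := by linarith
  have x3 : t * y ≤ K * (A * C) := by
    refine htC.trans ?_
    have : (A : ℝ) ≤ A * C := by nlinarith
    exact mul_le_mul_of_nonneg_left this hK.le
  have x4 : t * (A / (b : ℝ) ^ (2 / 5 : ℝ)) * C * y ≤ K * (A * C) := by
    have hP : 0 < (b : ℝ) ^ (2 / 5 : ℝ) := by positivity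
    have h1 : t * y ≤ K * (b : ℝ) ^ (2 / 5 : ℝ) := by
      calc t * y ≤ (K * (b : ℝ) ^ (1 / 40 : ℝ)) * y := by gcongr
        _ = K * ((b : ℝ) ^ (1 / 40 : ℝ) * (b : ℝ) ^ (1 / 4 : ℝ)) := by rw [hy]; ring
        _ = K * (b : ℝ) ^ (1 / 40 + 1 / 4 : ℝ) := by rw [← Real.rpow_add hb0]
        _ ≤ K * (b : ℝ) ^ (2 / 5 : ℝ) := by
            apply mul_le_mul_of_nonneg_left _ hK.le
            exact Real.rpow_le_rpow_of_exponent_le hb1' (by norm_num)
    calc t * (A / (b : ℝ) ^ (2 / 5 : ℝ)) * C * y = (t * y) * (A * C) / (b : ℝ) ^ (2 / 5 : ℝ) := by ring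
      _ ≤ (K * (b : ℝ) ^ (2 / 5 : ℝ)) * (A * C) / (b : ℝ) ^ (2 / 5 : ℝ) := by gcongr
      _ = _ := by field_simp
  have x5 : t * C * y ≤ K * (A * C) := by
    calc t * C * y = (t * y) * C := by ring
      _ ≤ (K * A) * C := mul_le_mul_of_nonneg_right htC hC0
      _ = _ := by ring
  have hfin : (S.card : ℝ) * y ≤ 5 / 12 * (ε * (A * C) / Real.log b) * y + M * (A * C) := by
    have h1 := mul_le_mul_of_nonneg_right htot2 hy0.le
    rw [hM]
    nlinarith
  have h1 := mul_le_mul_of_nonneg_right hSc hy0.le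
  have h2 : 7 / 12 * (ε * (A * C) / Real.log b) * y ≤ M * (A * C) := by linarith
  have hACp : 0 < (A : ℝ) * C := by
    have : 0 < (b : ℝ) ^ (3 / 5 : ℝ) := by positivity
    have hAp : (0 : ℝ) < A := by linarith
    positivity
  have h3 : 7 / 12 * ε * y ≤ M * Real.log b := by
    have e1 : 7 / 12 * (ε * ((A : ℝ) * C) / Real.log b) * y = (7 / 12 * ε * y) * (A * C) / Real.log b := by ring
    rw [e1, div_le_iff₀ hL0] at h2
    have h4 : (7 / 12 * ε * y) * (A * C) ≤ (M * Real.log b) * (A * C) := by linarith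
    exact le_of_mul_le_mul_right h4 hACp
  rw [pow_one, ← hy, div_mul_eq_mul_div, div_le_iff₀ hε] at w2
  nlinarith [mul_pos hM0 hL0]

end Pool.Agent.Zk41.TD
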