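import Mathlib

/-!
Zk41/TD (helper41): three-digit palindromes with at most two prime factors; statements of the modules.
-/

set_option autoImplicit false

open Finset Filter

namespace Pool.Agent.Zk41.TD

/-- the number with the base-`b` digits `a c a` -/
def pal (b a c : ℕ) : ℕ := a * (b ^ 2 + 1) + c * b

open Classical in
/-- Few of the numbers `pal b a c` in a slightly flat box have the square of a large prime as a divisor.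

Proof (elementary). Let `K = b^(3η)`, `Λ_q = {(u,w) ∈ ℤ² : q² ∣ u(b²+1) + w b}`.
* `q ∣ b`: then `q ∣ a`; at most `1/ζ` such primes, each with `≤ (B1/q + 1) B2` pairs.
* `q ∤ b`, `q² ≤ 2 B1 B2`: for fixed `a` at most `B2/q² + 1` values of `c`; total
  `≤ B1 B2 ∑_{q ≥ b^ζ} 1/q² + B1 (2 B1 B2)^(1/2)`, small since `B1 ≤ B2 b^(-η)`.
* `q² > 2 B1 B2` (then `q ≤ 2 b^(3/2)` because `0 < pal ≤ 2 b³`): all the pairs `(a,c)` of the box with `q² ∣ pal b a c` are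
  on a line, because for three of them the determinant of the differences is a multiple of `q²` (eliminate:
  `q² ∣ u(b²+1) + w b` and `q² ∣ u'(b²+1) + w' b` give `q² ∣ b (u w' - u' w)` and `q ∤ b`) and `|det| < 2 B1 B2`.
  If there are `ρ` of them, two consecutive ones differ by a vector `v_q ≠ 0` with sup norm `≤ B2/(ρ-1)`.
  The map `q ↦ v_q` is injective: `q² q'² ∣ u(b²+1) + w b ≠ 0`, of absolute value `≤ 2 b³ < 4 (B1 B2)²`.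
  So the `q` with `ρ ≤ K` give `≤ K · 2 b^(3/2)` pairs, and those with `ρ > K` give
  `≤ ∑_{0 < |v| ≤ 2 B2/K} (1 + B2/|v|) ≤ C B2²/K`. -/
def S_SQ : Prop := ∀ ζ η : ℝ, 0 < ζ → 0 < η → η < 1 / 50 → ∃ κ : ℝ, 0 < κ ∧ ∃ b0 : ℕ, ∀ b : ℕ, b0 ≤ b →
  ∀ B1 B2 a0 c0 : ℕ, B2 ≤ b → (b : ℝ) ^ (8 / 5 : ℝ) ≤ B1 * B2 → (B2 : ℝ) * (b : ℝ) ^ (-(2 * η)) ≤ B1 →
    (B1 : ℝ) ≤ B2 * (b : ℝ) ^ (-η) → 1 ≤ a0 → a0 + B1 ≤ b → c0 + B2 ≤ b →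
    (((Ico a0 (a0 + B1) ×ˢ Ico c0 (c0 + B2)).filter (fun z : ℕ × ℕ => ∃ q : ℕ, q.Prime ∧ (b : ℝ) ^ ζ ≤ q ∧
      q ^ 2 ∣ pal b z.1 z.2)).card : ℝ) ≤ (b : ℝ) ^ (-κ) * (B1 * B2)

open Classical in
/-- The same for all flat boxes (this is what I would like best; `S_SQ` is a special case).

Changes in the proof of `S_SQ` for `B1 ≤ B2 b^(-η)`: for `q² > 2 B1 B2` two consecutive points of the line differ by
`v_q = (u,w) ≠ 0` with `|u| ≤ B1/(ρ-1)` AND `|w| ≤ B2/(ρ-1)` (both coordinates are monotone along the line), so the `q` with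
`ρ > K = b^κ'` give `≤ ∑_{v ≠ 0, |u| ≤ 2 B1/K, |w| ≤ 2 B2/K} (1 + min(B1/|u|, B2/|w|))
≤ (4 B1/K + 1)(4 B2/K + 1) + ...`; simplest: for `w ≠ 0` the sum over `|u| ≤ 2B1/K`, of `1 + B2/|w|` is
`≤ (4 B1/K + 1)(4 B2/K + 2 B2 (1 + log b))`, and for `w = 0` (`u ≠ 0`): `≤ 4 B1/K + 2 B1 (1 + log b)`; all this is
`≤ b^(-κ) B1 B2` because `B1, B2 ≥ b^(3/5)`.
For `B2 ≤ B1 b^(-η)`: exchange the roles of `a` and `c` (for fixed `c` and `q ∤ b²+1` at most `B1/q² + 1` values of `a`;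
a prime `q ∣ b²+1` with `q ∣ pal b a c` divides `c`; at most `2/ζ` such primes `q ≥ b^ζ`;
`c = 0` is allowed: then `pal = a (b²+1)`; the pairs with `c = 0` are only `B1`, discard them). -/
def S_SQ' : Prop := ∀ ζ η : ℝ, 0 < ζ → 0 < η → η < 1 / 50 → ∃ κ : ℝ, 0 < κ ∧ ∃ b0 : ℕ, ∀ b : ℕ, b0 ≤ b →
  ∀ B1 B2 a0 c0 : ℕ, B1 ≤ b → B2 ≤ b → (b : ℝ) ^ (8 / 5 : ℝ) ≤ B1 * B2 →
    (B1 : ℝ) ≤ B2 * (b : ℝ) ^ (-η) ∨ (B2 : ℝ) ≤ B1 * (b : ℝ) ^ (-η) → 1 ≤ a0 → a0 + B1 ≤ b → c0 + B2 ≤ b →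
    (((Ico a0 (a0 + B1) ×ˢ Ico c0 (c0 + B2)).filter (fun z : ℕ × ℕ => ∃ q : ℕ, q.Prime ∧ (b : ℝ) ^ ζ ≤ q ∧
      q ^ 2 ∣ pal b z.1 z.2)).card : ℝ) ≤ (b : ℝ) ^ (-κ) * (B1 * B2)

/-- the index set of the sieve: quadruples -/
def Q4 (N1 N2 : ℕ) : Finset (ℕ × ℕ × ℕ × ℕ) := range N1 ×ˢ range N1 ×ˢ range N2 ×ˢ range N2

/-- the palindrome attached to a quadruple -/
def pq (b a0 c0 : ℕ) (z : ℕ × ℕ × ℕ × ℕ) : ℕ := pal b (a0 + z.1 + z.2.1) (c0 + z.2.2.1 + z.2.2.2)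

/-- The level of distribution. -/
def S_LV : Prop := ∀ ε : ℝ, 0 < ε → ∃ b0 : ℕ, ∀ b : ℕ, b0 ≤ b → ∀ N1 N2 a0 c0 : ℕ, 1 ≤ N1 → 1 ≤ N2 →
  N1 ≤ b → N2 ≤ b → ∀ D : ℝ, 1 ≤ D → D ≤ (b : ℝ) ^ 2 →
    ∑ d ∈ Icc 1 ⌊D⌋₊, |(((Q4 N1 N2).filter (fun z => d ∣ pq b a0 c0 z)).card : ℝ) - (N1 : ℝ) ^ 2 * (N2 : ℝ) ^ 2 / d| ≤
      (b : ℝ) ^ ε * (N1 * N2 * (N1 + N2 + D))

end Pool.Agent.Zk41.TD
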