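import Pool.Agent.Zk41.P5.D
import Pool.Agent.K3h31.LP.Sieve

/-!
Zk41/TD (helper41): the weighted linear sieve with Richert's weights for a finite family.
-/

set_option autoImplicit false

open Finset Filter

namespace Pool.Agent.Zk41.TD

open Pool.Agent.K3h19.RV (Lam)
open Pool.Agent.W23.DC
open Pool.Agent.Y882
open Pool.Agent.Y882.PX
open Pool.Agent.Y882.KW
open Pool.Agent.K3h31.LP (pr_facts lower)

open Classical in
theorem card_enc {ι : Type} [Encodable ι] (J : Finset ι) (N : ι → ℕ) (P : ℕ → Prop) :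
    ((J.image (Encodable.encode : ι → ℕ)).filter (fun j => P (((Encodable.decode j : Option ι)).elim 0 N))).card =
      (J.filter (fun z => P (N z))).card := by
  rw [filter_image, card_image_of_injective _ Encodable.encode_injective]
  congr 1
  apply filter_congr
  intro z _
  simp [Encodable.encodek]

open Classical in
/-- **The weighted sieve.** -/
theorem eng (r : ℕ) (hr : 1 ≤ r) (D τ' : ℝ) (hD0 : 0 < D) (hD : D < τ' * Lam r) (hτ1 : τ' ≤ 1) :
    ∃ ζ c : ℝ, D / (4 * Lam r) ≤ ζ ∧ 0 < c ∧ ∃ H₀ : ℕ, ∀ H : ℕ, H₀ ≤ H → ∀ {ι : Type} [Encodable ι] (J : Finset ι) (N : ι → ℕ),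
      (∀ z ∈ J, N z ≠ 0 ∧ (N z : ℝ) ≤ (H : ℝ) ^ D) →
      ∑ d ∈ Icc 1 ⌊(H : ℝ) ^ τ'⌋₊, |((J.filter (fun z => d ∣ N z)).card : ℝ) - J.card / d| ≤ J.card / Real.log H ^ 3 →
      ((J.filter (fun z => ∃ q : ℕ, q.Prime ∧ (H : ℝ) ^ ζ ≤ q ∧ q ^ 2 ∣ N z)).card : ℝ) ≤ J.card / Real.log H ^ 2 →
      c * J.card / Real.log H ≤ ((J.filter (fun z => (N z).primeFactorsList.length ≤ r ∧
        ∀ p : ℕ, p.Prime → p ∣ N z → (H : ℝ) ^ ζ ≤ p)).card : ℝ) := by
  have hL1 := Pool.Agent.Zk41.P5.Lam_pos r hr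
  have hL0 : 0 < Lam r := by linarith
  have hDL : D / Lam r < τ' := by rw [div_lt_iff₀ hL0]; linarith
  have hDL0 : 0 < D / Lam r := by positivity
  obtain ⟨τ, hτd⟩ : ∃ τ : ℝ, τ = (D / Lam r + τ') / 2 := ⟨_, rfl⟩
  have hτ0 : 0 < τ := by rw [hτd]; linarith
  have hττ' : τ < τ' := by rw [hτd]; linarith
  have hτL : D < τ * Lam r := by
    have h1 : D / Lam r < τ := by rw [hτd]; linarith
    rwa [div_lt_iff₀ hL0] at h1
  obtain ⟨υ, lam, S, hτυ, hυτ, hlam, hDS, hrS, hint⟩ := Pool.Agent.Zk41.P4.richertD r hr D τ hD0 hτ0 hτL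
  have hυ0 : 0 < υ := by linarith
  obtain ⟨δ, hδ, Y0, HL⟩ := lower τ (τ / 4) υ lam τ' (by linarith) (by linarith) (by linarith) (by linarith) hτυ hυτ
    hlam hint hττ'
  have hcast : Tendsto (fun H : ℕ => (H : ℝ)) atTop atTop := tendsto_natCast_atTop_atTop
  have hlogt : Tendsto (fun H : ℕ => Real.log H) atTop atTop := Real.tendsto_log_atTop.comp hcast
  obtain ⟨Y1, hY1⟩ := eventually_atTop.1 (hlogt.eventually_ge_atTop (20 / δ))
  refine ⟨τ / 4, δ / 2, by
    rw [div_le_div_iff₀ (by positivity) (by norm_num)]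
    have h1 : D / Lam r < τ := by rw [hτd]; linarith
    rw [div_lt_iff₀ hL0] at h1
    linarith, by positivity, Y0 + Y1 + 3, fun H hH ι _ J N hN hlev hsq => ?_⟩
  have w1 := hY1 H (by omega)
  have hH3 : (3 : ℝ) ≤ H := by exact_mod_cast (by omega : 3 ≤ H)
  have hH0 : (0 : ℝ) < H := by linarith
  have hH1 : (1 : ℝ) < H := by linarith
  have hlH : 0 < Real.log H := Real.log_pos hH1
  obtain ⟨c, hcL, hcD, hcW⟩ := HL H (by omega)
  have hmain := hcW (fun p => 1 / (p : ℝ)) (Or.inr (by norm_num)) (fun p _ _ => rfl)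
    (J.image (Encodable.encode : ι → ℕ)) (fun j => ((Encodable.decode j : Option ι)).elim 0 N)
  rw [card_enc J N (fun n => 0 < WW H (τ / 4) υ lam (lam / υ) n),
    card_image_of_injective _ Encodable.encode_injective] at hmain
  have hPZ : ∀ p ∈ PZ H υ, p.Prime := by
    intro p hp
    unfold PZ at hp
    rw [mem_filter] at hp
    exact hp.2.1
  -- the remainder
  obtain ⟨Rd, hRd⟩ : ∃ Rd : ℕ → ℝ, Rd = fun d => ((J.filter (fun z => d ∣ N z)).card : ℝ) - J.card / d := ⟨_, rfl⟩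
  have hrem : ∑ T ∈ (PZ H υ).powerset, c T * (((J.image (Encodable.encode : ι → ℕ)).filter
      (fun j => ∏ p ∈ T, p ∣ ((Encodable.decode j : Option ι)).elim 0 N)).card - (J.card : ℝ) * ∏ p ∈ T, (1 / (p : ℝ))) =
      ∑ T ∈ (PZ H υ).powerset, c T * Rd (∏ p ∈ T, p) := by
    apply sum_congr rfl
    intro T _
    have hc : ((J.image (Encodable.encode : ι → ℕ)).filter
        (fun j => ∏ p ∈ T, p ∣ ((Encodable.decode j : Option ι)).elim 0 N)).card = (J.filter (fun z => ∏ p ∈ T, p ∣ N z)).card := by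
      convert card_enc J N (fun n => ∏ p ∈ T, p ∣ n)
    rw [hc, hRd]
    simp only
    congr 1
    congr 1
    push_cast
    rw [prod_div_distrib, prod_const_one]
    ring
  rw [hrem] at hmain
  have hprT : ∀ T ∈ (PZ H υ).powerset, (∏ p ∈ T, p).primeFactors = T := by
    intro T hT
    rw [mem_powerset] at hT
    exact Nat.primeFactors_prod (fun p hp => hPZ p (hT hp))
  have hbound : |∑ T ∈ (PZ H υ).powerset, c T * Rd (∏ p ∈ T, p)| ≤
      5 * Real.log H * ∑ d ∈ Icc 1 ⌊(H : ℝ) ^ τ'⌋₊, |Rd d| := by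
    refine (abs_sum_le_sum_abs _ _).trans ?_
    have h1 : ∑ T ∈ (PZ H υ).powerset, |c T * Rd (∏ p ∈ T, p)| ≤
        ∑ T ∈ (PZ H υ).powerset.filter (fun T : Finset ℕ => ((∏ p ∈ T, p : ℕ) : ℝ) ≤ (H : ℝ) ^ τ'), 5 * Real.log H * |Rd (∏ p ∈ T, p)| := by
      rw [sum_filter]
      apply sum_le_sum
      intro T hT
      rw [mem_powerset] at hT
      rw [abs_mul]
      split_ifs with h
      · exact mul_le_mul_of_nonneg_right (hcL T) (abs_nonneg _)
      · have : c T = 0 := by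
          by_contra h0
          exact h (hcD T hT h0)
        rw [this, abs_zero, zero_mul]
    refine h1.trans ?_
    rw [← mul_sum]
    apply mul_le_mul_of_nonneg_left _ (by positivity)
    have h2 : ∑ T ∈ (PZ H υ).powerset.filter (fun T : Finset ℕ => ((∏ p ∈ T, p : ℕ) : ℝ) ≤ (H : ℝ) ^ τ'), |Rd (∏ p ∈ T, p)| =
        ∑ d ∈ ((PZ H υ).powerset.filter (fun T : Finset ℕ => ((∏ p ∈ T, p : ℕ) : ℝ) ≤ (H : ℝ) ^ τ')).image (fun T => ∏ p ∈ T, p), |Rd d| := by
      rw [sum_image]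
      intro T hT T' hT' h
      rw [mem_coe, mem_filter] at hT hT'
      rw [← hprT T hT.1, ← hprT T' hT'.1]
      exact congrArg _ h
    rw [h2]
    apply sum_le_sum_of_subset_of_nonneg
    · intro d hd
      rw [mem_image] at hd
      obtain ⟨T, hT, rfl⟩ := hd
      rw [mem_filter, mem_powerset] at hT
      rw [mem_Icc]
      refine ⟨Nat.one_le_iff_ne_zero.2 (prod_ne_zero_iff.2 (fun p hp => (hPZ p (hT.1 hp)).ne_zero)), ?_⟩
      exact Nat.le_floor hT.2
    · intro d _ _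
      exact abs_nonneg _
  have hJ0 : (0 : ℝ) ≤ J.card := Nat.cast_nonneg _
  have hlev' : ∑ d ∈ Icc 1 ⌊(H : ℝ) ^ τ'⌋₊, |Rd d| ≤ J.card / Real.log H ^ 3 := by
    rw [hRd]; exact hlev
  have hb2 : |∑ T ∈ (PZ H υ).powerset, c T * Rd (∏ p ∈ T, p)| ≤ δ / 4 * (J.card / Real.log H) := by
    refine hbound.trans ((mul_le_mul_of_nonneg_left hlev' (by positivity)).trans ?_)
    rw [div_le_iff₀ hδ] at w1
    rw [show 5 * Real.log H * ((J.card : ℝ) / Real.log H ^ 3) = 5 * (J.card / Real.log H) / Real.log H by field_simp,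
      div_le_iff₀ hlH]
    have : 0 ≤ (J.card : ℝ) / Real.log H := by positivity
    nlinarith
  have hb3 : (J.card : ℝ) / Real.log H ^ 2 ≤ δ / 4 * (J.card / Real.log H) := by
    rw [div_le_iff₀ hδ] at w1
    rw [show (J.card : ℝ) / Real.log H ^ 2 = (J.card / Real.log H) / Real.log H by field_simp, div_le_iff₀ hlH]
    have : 0 ≤ (J.card : ℝ) / Real.log H := by positivity
    nlinarith
  -- the good points
  have hsub : J.filter (fun z => 0 < WW H (τ / 4) υ lam (lam / υ) (N z)) ⊆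
      J.filter (fun z => (N z).primeFactorsList.length ≤ r ∧ ∀ p : ℕ, p.Prime → p ∣ N z → (H : ℝ) ^ (τ / 4) ≤ p) ∪
      J.filter (fun z => ∃ q : ℕ, q.Prime ∧ (H : ℝ) ^ (τ / 4) ≤ q ∧ q ^ 2 ∣ N z) := by
    intro z hz
    rw [mem_filter] at hz
    rw [mem_union, mem_filter, mem_filter]
    by_cases hq : ∃ q : ℕ, q.Prime ∧ (H : ℝ) ^ (τ / 4) ≤ q ∧ q ^ 2 ∣ N z
    · exact Or.inr ⟨hz.1, hq⟩
    · left
      refine ⟨hz.1, ?_⟩
      obtain ⟨hne, hsz⟩ := hN z hz.1
      exact almost H (by omega) (τ / 4) υ lam S r hτυ hυ0 (by linarith) hlam hrS (N z) hne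
        (hsz.trans (Real.rpow_le_rpow_of_exponent_le hH1.le hDS.le)) hz.2 (by
          intro q hq1 hqd
          obtain ⟨g1, g2, g3, g4⟩ := pr_facts (by omega) hq1
          exact hq ⟨q, g1, g3, hqd⟩)
  have hcard : ((J.filter (fun z => 0 < WW H (τ / 4) υ lam (lam / υ) (N z))).card : ℝ) ≤
      ((J.filter (fun z => (N z).primeFactorsList.length ≤ r ∧ ∀ p : ℕ, p.Prime → p ∣ N z → (H : ℝ) ^ (τ / 4) ≤ p)).card : ℝ) +
      ((J.filter (fun z => ∃ q : ℕ, q.Prime ∧ (H : ℝ) ^ (τ / 4) ≤ q ∧ q ^ 2 ∣ N z)).card : ℝ) := by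
    exact_mod_cast (card_le_card hsub).trans (card_union_le _ _)
  have hlo := (abs_le.1 hb2).1
  have e0 : δ * (J.card : ℝ) / Real.log H = δ * (J.card / Real.log H) := by ring
  have e1 : δ / 2 * (J.card : ℝ) / Real.log H = δ / 2 * (J.card / Real.log H) := by ring
  rw [e0] at hmain
  rw [e1]
  linarith

end Pool.Agent.Zk41.TD
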