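import Pool.Agent.Zk41.TD.LV
import Pool.Agent.Zk41.TD.SV

/-!
Zk41/TD (helper41): three-digit palindromes with at most two prime factors in flat boxes.
-/

set_option autoImplicit false

open Finset Filter

namespace Pool.Agent.Zk41.TD

open Pool.Agent.K3h19.RV (Lam)

open Classical in
lemma fib (P : ℕ → ℕ → Prop) (N1 N2 a0 c0 B1 B2 : ℕ) (h1 : 2 * N1 ≤ B1 + 1) (h2 : 2 * N2 ≤ B2 + 1) :
    ((Q4 N1 N2).filter (fun z => P (a0 + z.1 + z.2.1) (c0 + z.2.2.1 + z.2.2.2))).card ≤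
      N1 * N2 * ((Ico a0 (a0 + B1) ×ˢ Ico c0 (c0 + B2)).filter (fun w : ℕ × ℕ => P w.1 w.2)).card := by
  have h : ((Q4 N1 N2).filter (fun z => P (a0 + z.1 + z.2.1) (c0 + z.2.2.1 + z.2.2.2))).card ≤
      ((range N1 ×ˢ range N2) ×ˢ ((Ico a0 (a0 + B1) ×ˢ Ico c0 (c0 + B2)).filter (fun w : ℕ × ℕ => P w.1 w.2))).card := by
    apply card_le_card_of_injOn (fun z => ((z.1, z.2.2.1), (a0 + z.1 + z.2.1, c0 + z.2.2.1 + z.2.2.2)))
    · intro z hz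
      rw [mem_coe, mem_filter] at hz
      unfold Q4 at hz
      simp only [mem_product, mem_range] at hz
      obtain ⟨⟨g1, g2, g3, g4⟩, g5⟩ := hz
      rw [mem_coe, mem_product, mem_product, mem_filter, mem_product, mem_range, mem_range, mem_Ico, mem_Ico]
      refine ⟨⟨g1, g3⟩, ⟨⟨?_, ?_⟩, ?_, ?_⟩, g5⟩ <;> simp only <;> omega
    · rintro ⟨x, y, x', y'⟩ _ ⟨u, v, u', v'⟩ _ e
      simp only [Prod.mk.injEq] at e
      obtain ⟨⟨e1, e2⟩, e3, e4⟩ := e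
      simp only [Prod.mk.injEq]
      omega
  refine h.trans (le_of_eq ?_)
  rw [card_product, card_product, card_range, card_range]

lemma lam2_lo : (9 / 5 : ℝ) ≤ Lam 2 := by
  unfold Lam
  have h3 : 0 < Real.log 3 := Real.log_pos (by norm_num)
  have h : (4 / 5 : ℝ) ≤ Real.log ((3 ^ 2 + 1) / 4) / Real.log 3 := by
    rw [le_div_iff₀ h3]
    have h1 : 4 * Real.log 3 ≤ 5 * Real.log ((3 ^ 2 + 1) / 4) := by
      have e1 : 4 * Real.log 3 = Real.log (3 ^ 4) := by rw [Real.log_pow]; norm_num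
      have e2 : 5 * Real.log ((3 ^ 2 + 1) / 4) = Real.log (((3 ^ 2 + 1) / 4) ^ 5) := by rw [Real.log_pow]; norm_num
      rw [e1, e2]
      apply Real.log_le_log (by norm_num)
      norm_num
    linarith
  linarith

lemma lam2_hi : Lam 2 ≤ (15 / 8 : ℝ) := by
  unfold Lam
  have h3 : 0 < Real.log 3 := Real.log_pos (by norm_num)
  have h : Real.log ((3 ^ 2 + 1) / 4) / Real.log 3 ≤ (7 / 8 : ℝ) := by
    rw [div_le_iff₀ h3]
    have h1 : 8 * Real.log ((3 ^ 2 + 1) / 4) ≤ 7 * Real.log 3 := by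
      have e1 : 7 * Real.log 3 = Real.log (3 ^ 7) := by rw [Real.log_pow]; norm_num
      have e2 : 8 * Real.log ((3 ^ 2 + 1) / 4) = Real.log (((3 ^ 2 + 1) / 4) ^ 8) := by rw [Real.log_pow]; norm_num
      rw [e1, e2]
      apply Real.log_le_log (by norm_num)
      norm_num
    linarith
  linarith

lemma pal_le (b a c : ℕ) (hb : 3 ≤ b) (ha : a < b) (hc : c < b) : pal b a c ≤ 2 * b ^ 3 := by
  unfold pal
  have h1 : a * (b ^ 2 + 1) ≤ (b - 1) * (b ^ 2 + 1) := Nat.mul_le_mul_right _ (by omega)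
  have h2 : c * b ≤ b * b := Nat.mul_le_mul_right _ hc.le
  obtain ⟨k, rfl⟩ : ∃ k, b = k + 1 := ⟨b - 1, by omega⟩
  simp only [Nat.add_sub_cancel] at h1
  nlinarith [sq_nonneg (k : ℤ)]

/-- the good pairs -/
def Good (b a c : ℕ) : Prop := (pal b a c).primeFactorsList.length ≤ 2 ∧
  ∀ p : ℕ, p.Prime → p ∣ pal b a c → (b : ℝ) ^ (2 / 5 : ℝ) ≤ p

open Classical in
/-- **Flat boxes.** -/
theorem flat (hSQ : S_SQ') (θ η : ℝ) (hθ : 3 / Lam 2 < θ) (hη : 0 < η) (hη1 : η < 1 / 50) :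
    ∃ c : ℝ, 0 < c ∧ ∃ b0 : ℕ, ∀ b : ℕ, b0 ≤ b → ∀ B1 B2 a0 c0 : ℕ, B1 ≤ b → B2 ≤ b → (b : ℝ) ^ θ ≤ B1 * B2 →
      ((B1 : ℝ) ≤ B2 * (b : ℝ) ^ (-η) ∨ (B2 : ℝ) ≤ B1 * (b : ℝ) ^ (-η)) → 1 ≤ a0 → a0 + B1 ≤ b → c0 + B2 ≤ b →
      c * (B1 * B2) / Real.log b ≤
        (((Ico a0 (a0 + B1) ×ˢ Ico c0 (c0 + B2)).filter (fun w : ℕ × ℕ => Good b w.1 w.2)).card : ℝ) := by
  have hl1 := lam2_lo
  have hl2 := lam2_hi
  have hl0 : 0 < Lam 2 := by linarith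
  -- we may take θ smaller
  obtain ⟨θ', hθ'd⟩ : ∃ θ' : ℝ, θ' = min θ 2 := ⟨_, rfl⟩
  have h3l : 3 / Lam 2 < 2 := by rw [div_lt_iff₀ hl0]; linarith
  have hθ' : 3 / Lam 2 < θ' := by rw [hθ'd]; exact lt_min hθ h3l
  have hθ'2 : θ' ≤ 2 := by rw [hθ'd]; exact min_le_right _ _
  have hθ'θ : θ' ≤ θ := by rw [hθ'd]; exact min_le_left _ _
  have h85 : (8 / 5 : ℝ) ≤ 3 / Lam 2 := by rw [le_div_iff₀ hl0]; linarith
  obtain ⟨τ, hτd⟩ : ∃ τ : ℝ, τ = (θ' / 2 + (3 / Lam 2) / 2) / 2 := ⟨_, rfl⟩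
  have hτ1 : τ < θ' / 2 := by rw [hτd]; linarith
  have hτ2 : (3 / Lam 2) / 2 < τ := by rw [hτd]; linarith
  have hτ3 : 3 / 2 < τ * Lam 2 := by
    have h1 : (3 / Lam 2) < 2 * τ := by linarith
    rw [div_lt_iff₀ hl0] at h1
    linarith
  obtain ⟨Dx, hDx⟩ : ∃ Dx : ℝ, Dx = (3 / 2 + τ * Lam 2) / 2 := ⟨_, rfl⟩
  have hDx1 : 3 / 2 < Dx := by rw [hDx]; linarith
  have hDx2 : Dx < τ * Lam 2 := by rw [hDx]; linarith
  obtain ⟨ζ, c, hζ, hc, H0, HE⟩ := eng 2 (by norm_num) Dx τ (by linarith) hDx2 (by linarith)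
  have hζ1 : 1 / 5 < ζ := by
    refine lt_of_lt_of_le ?_ hζ
    rw [lt_div_iff₀ (by positivity)]
    linarith
  obtain ⟨κ, hκ, b1, HSQ⟩ := hSQ (2 * ζ) η (by linarith) hη hη1
  obtain ⟨ε, hεd⟩ : ∃ ε : ℝ, ε = (θ' - 2 * τ) / 2 := ⟨_, rfl⟩
  have hε : 0 < ε := by rw [hεd]; linarith
  obtain ⟨b2, HLV⟩ := lv (ε / 2) (by linarith)
  have hcast : Tendsto (fun b : ℕ => (b : ℝ)) atTop atTop := tendsto_natCast_atTop_atTop
  have v1 := Pool.Agent.Y677.RSZ.ev_log 3 (8 * 12) (ε / 2) (by linarith)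
  have v2 := Pool.Agent.Y677.RSZ.ev_log 2 (4 * 4) κ hκ
  have v3 : ∀ᶠ b : ℕ in atTop, (2 : ℝ) ≤ (b : ℝ) ^ (2 * Dx - 3) :=
    ((tendsto_rpow_atTop (by linarith)).comp hcast).eventually_ge_atTop _
  obtain ⟨b3, hb3⟩ := eventually_atTop.1 (v1.and (v2.and v3))
  refine ⟨c / 8, by positivity, b1 + b2 + b3 + H0 + 3, fun b hb B1 B2 a0 c0 hB1 hB2 hBB hfl ha0 ha hc0 => ?_⟩
  obtain ⟨w1, w2, w3⟩ := hb3 b (by omega)
  have hbr : (3 : ℝ) ≤ b := by exact_mod_cast (by omega : 3 ≤ b)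
  have hb0 : (0 : ℝ) < b := by linarith
  have hb1 : (1 : ℝ) ≤ b := by linarith
  have hlb : 0 < Real.log b := Real.log_pos (by linarith)
  have hBB' : (b : ℝ) ^ θ' ≤ B1 * B2 := (Real.rpow_le_rpow_of_exponent_le hb1 hθ'θ).trans hBB
  have hpos : 0 < (B1 : ℝ) * B2 := lt_of_lt_of_le (by positivity) hBB'
  have hB1p : 1 ≤ B1 := by
    by_contra h
    have : B1 = 0 := by omega
    rw [this] at hpos
    simp at hpos
  have hB2p : 1 ≤ B2 := by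
    by_contra h
    have : B2 = 0 := by omega
    rw [this] at hpos
    simp at hpos
  obtain ⟨N1, hN1⟩ : ∃ N1 : ℕ, N1 = (B1 + 1) / 2 := ⟨_, rfl⟩
  obtain ⟨N2, hN2⟩ : ∃ N2 : ℕ, N2 = (B2 + 1) / 2 := ⟨_, rfl⟩
  have hN1p : 1 ≤ N1 := by omega
  have hN2p : 1 ≤ N2 := by omega
  have hB1N : (B1 : ℝ) ≤ 2 * N1 := by
    have : B1 ≤ 2 * N1 := by omega
    exact_mod_cast this
  have hB2N : (B2 : ℝ) ≤ 2 * N2 := by
    have : B2 ≤ 2 * N2 := by omega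
    exact_mod_cast this
  have hN1b : N1 ≤ b := by omega
  have hN2b : N2 ≤ b := by omega
  have hN1r : (1 : ℝ) ≤ N1 := by exact_mod_cast hN1p
  have hN2r : (1 : ℝ) ≤ N2 := by exact_mod_cast hN2p
  have hNN : (B1 : ℝ) * B2 ≤ 4 * (N1 * N2) := by
    have := mul_le_mul hB1N hB2N (Nat.cast_nonneg _) (by positivity)
    linarith
  have hcardQ : ((Q4 N1 N2).card : ℝ) = (N1 : ℝ) ^ 2 * (N2 : ℝ) ^ 2 := by
    unfold Q4
    simp only [card_product, card_range]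
    push_cast
    ring
  -- the scale
  have hHr : ((b ^ 2 : ℕ) : ℝ) = (b : ℝ) ^ 2 := by push_cast; rfl
  have hpw : ∀ e : ℝ, (((b ^ 2 : ℕ) : ℝ)) ^ e = (b : ℝ) ^ (2 * e) := by
    intro e
    rw [hHr, ← Real.rpow_natCast, ← Real.rpow_mul hb0.le]
    norm_num
  have hlogH : Real.log ((b ^ 2 : ℕ) : ℝ) = 2 * Real.log b := by
    rw [hHr, Real.log_pow]; norm_num
  have hHge : H0 ≤ b ^ 2 := by nlinarith
  have hE := HE (b ^ 2) hHge (Q4 N1 N2) (pq b a0 c0) (by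
    intro z hz
    unfold Q4 at hz
    simp only [mem_product, mem_range] at hz
    obtain ⟨g1, g2, g3, g4⟩ := hz
    constructor
    · unfold pq pal
      have : 0 < (a0 + z.1 + z.2.1) * (b ^ 2 + 1) := Nat.mul_pos (by omega) (by positivity)
      omega
    · have h1 : pq b a0 c0 z ≤ 2 * b ^ 3 := pal_le b _ _ (by omega) (by omega) (by omega)
      have h2 : ((pq b a0 c0 z : ℕ) : ℝ) ≤ 2 * (b : ℝ) ^ 3 := by exact_mod_cast h1
      rw [hpw]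
      refine h2.trans ?_
      have h4 : (b : ℝ) ^ (2 * Dx) = (b : ℝ) ^ (2 * Dx - 3) * (b : ℝ) ^ 3 := by
        rw [← Real.rpow_natCast, ← Real.rpow_add hb0]
        congr 1
        push_cast
        ring
      rw [h4]
      exact mul_le_mul_of_nonneg_right w3 (by positivity)) (by
    rw [hcardQ, hlogH, hpw]
    have h1 := HLV b (by omega) N1 N2 a0 c0 hN1p hN2p hN1b hN2b ((b : ℝ) ^ (2 * τ))
      (Real.one_le_rpow hb1 (by linarith)) (by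
        rw [← Real.rpow_natCast]
        exact Real.rpow_le_rpow_of_exponent_le hb1 (by push_cast; linarith))
    refine h1.trans ?_
    have hN1b' : (N1 : ℝ) ≤ (b : ℝ) ^ (2 * τ) := by
      have h2 : (N1 : ℝ) ≤ b := by exact_mod_cast hN1b
      refine h2.trans ?_
      conv_lhs => rw [← Real.rpow_one (b : ℝ)]
      exact Real.rpow_le_rpow_of_exponent_le hb1 (by linarith)
    have hN2b' : (N2 : ℝ) ≤ (b : ℝ) ^ (2 * τ) := by
      have h2 : (N2 : ℝ) ≤ b := by exact_mod_cast hN2b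
      refine h2.trans ?_
      conv_lhs => rw [← Real.rpow_one (b : ℝ)]
      exact Real.rpow_le_rpow_of_exponent_le hb1 (by linarith)
    rw [le_div_iff₀ (by positivity)]
    have h5 : (b : ℝ) ^ θ' = (b : ℝ) ^ (ε / 2) * (b : ℝ) ^ (ε / 2) * (b : ℝ) ^ ε * (b : ℝ) ^ (2 * τ) := by
      rw [← Real.rpow_add hb0, ← Real.rpow_add hb0, ← Real.rpow_add hb0]
      congr 1
      rw [hεd]
      ring
    have h6 : 1 ≤ (b : ℝ) ^ ε := Real.one_le_rpow hb1 hε.le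
    have hP : 0 < (b : ℝ) ^ (ε / 2) := by positivity
    have hT : 0 < (b : ℝ) ^ (2 * τ) := by positivity
    have h7 : (b : ℝ) ^ (ε / 2) * (8 * 12 * Real.log b ^ 3) * (b : ℝ) ^ (2 * τ) ≤ (b : ℝ) ^ θ' := by
      rw [h5]
      have : (b : ℝ) ^ (ε / 2) * (8 * 12 * Real.log b ^ 3) ≤ (b : ℝ) ^ (ε / 2) * (b : ℝ) ^ (ε / 2) :=
        mul_le_mul_of_nonneg_left w1 hP.le
      have h8 : (b : ℝ) ^ (ε / 2) * (b : ℝ) ^ (ε / 2) ≤ (b : ℝ) ^ (ε / 2) * (b : ℝ) ^ (ε / 2) * (b : ℝ) ^ ε := by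
        nlinarith [mul_pos hP hP]
      nlinarith
    have h8 : (b : ℝ) ^ θ' ≤ 4 * (N1 * N2) := hBB'.trans hNN
    have h9 : (N1 : ℝ) + N2 + (b : ℝ) ^ (2 * τ) ≤ 3 * (b : ℝ) ^ (2 * τ) := by linarith
    calc (b : ℝ) ^ (ε / 2) * (N1 * N2 * (N1 + N2 + (b : ℝ) ^ (2 * τ))) * (2 * Real.log b) ^ 3
        ≤ (b : ℝ) ^ (ε / 2) * (N1 * N2 * (3 * (b : ℝ) ^ (2 * τ))) * (2 * Real.log b) ^ 3 := by gcongr
      _ = (N1 * N2) * ((b : ℝ) ^ (ε / 2) * (8 * 12 * Real.log b ^ 3) * (b : ℝ) ^ (2 * τ)) / 4 := by ring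
      _ ≤ (N1 * N2) * (4 * (N1 * N2)) / 4 := by
          apply div_le_div_of_nonneg_right _ (by norm_num)
          exact mul_le_mul_of_nonneg_left (h7.trans h8) (by positivity)
      _ = _ := by ring) (by
    rw [hcardQ, hlogH]
    have h1 := fib (fun a c' => ∃ q : ℕ, q.Prime ∧ (((b ^ 2 : ℕ) : ℝ)) ^ ζ ≤ q ∧ q ^ 2 ∣ pal b a c') N1 N2 a0 c0 B1 B2 (by omega) (by omega)
    have h2 := HSQ b (by omega) B1 B2 a0 c0 hB1 hB2
      ((Real.rpow_le_rpow_of_exponent_le hb1 (by linarith)).trans hBB') hfl ha0 ha hc0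
    have h3 : (((Q4 N1 N2).filter (fun z => ∃ q : ℕ, q.Prime ∧ (((b ^ 2 : ℕ) : ℝ)) ^ ζ ≤ q ∧ q ^ 2 ∣ pq b a0 c0 z)).card : ℝ) ≤
        N1 * N2 * ((b : ℝ) ^ (-κ) * (B1 * B2)) := by
      have h4 : (((Q4 N1 N2).filter (fun z => ∃ q : ℕ, q.Prime ∧ (((b ^ 2 : ℕ) : ℝ)) ^ ζ ≤ q ∧ q ^ 2 ∣ pq b a0 c0 z)).card : ℝ) ≤
          N1 * N2 * (((Ico a0 (a0 + B1) ×ˢ Ico c0 (c0 + B2)).filter (fun w : ℕ × ℕ => ∃ q : ℕ, q.Prime ∧ (((b ^ 2 : ℕ) : ℝ)) ^ ζ ≤ q ∧ q ^ 2 ∣ pal b w.1 w.2)).card : ℝ) := by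
        exact_mod_cast h1
      refine h4.trans ?_
      apply mul_le_mul_of_nonneg_left _ (by positivity)
      simp only [hpw]
      exact h2
    refine h3.trans ?_
    rw [le_div_iff₀ (by positivity), Real.rpow_neg hb0.le]
    have hK : 0 < (b : ℝ) ^ κ := by positivity
    have h5 : (N1 : ℝ) * N2 * (((b : ℝ) ^ κ)⁻¹ * (B1 * B2)) * (2 * Real.log b) ^ 2 =
        (N1 * N2) * (B1 * B2) * (4 * Real.log b ^ 2) / (b : ℝ) ^ κ := by
      field_simp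
      ring
    rw [h5, div_le_iff₀ hK]
    calc (N1 : ℝ) * N2 * (B1 * B2) * (4 * Real.log b ^ 2) ≤ (N1 * N2) * (4 * (N1 * N2)) * (4 * Real.log b ^ 2) := by gcongr
      _ = (N1 : ℝ) ^ 2 * N2 ^ 2 * (4 * 4 * Real.log b ^ 2) := by ring
      _ ≤ _ := mul_le_mul_of_nonneg_left w2 (by positivity))
  rw [hcardQ, hlogH] at hE
  have hfb := fib (fun a c' => (pal b a c').primeFactorsList.length ≤ 2 ∧ ∀ p : ℕ, p.Prime → p ∣ pal b a c' → (((b ^ 2 : ℕ) : ℝ)) ^ ζ ≤ p)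
    N1 N2 a0 c0 B1 B2 (by omega) (by omega)
  have hfb' : (((Q4 N1 N2).filter (fun z => (pq b a0 c0 z).primeFactorsList.length ≤ 2 ∧ ∀ p : ℕ, p.Prime → p ∣ pq b a0 c0 z → (((b ^ 2 : ℕ) : ℝ)) ^ ζ ≤ p)).card : ℝ) ≤
      N1 * N2 * (((Ico a0 (a0 + B1) ×ˢ Ico c0 (c0 + B2)).filter (fun w : ℕ × ℕ => Good b w.1 w.2)).card : ℝ) := by
    have h5 : ((Q4 N1 N2).filter (fun z => (pq b a0 c0 z).primeFactorsList.length ≤ 2 ∧ ∀ p : ℕ, p.Prime → p ∣ pq b a0 c0 z → (((b ^ 2 : ℕ) : ℝ)) ^ ζ ≤ p)).card ≤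
        N1 * N2 * ((Ico a0 (a0 + B1) ×ˢ Ico c0 (c0 + B2)).filter (fun w : ℕ × ℕ => Good b w.1 w.2)).card := by
      refine le_trans (card_le_card ?_) (hfb.trans (Nat.mul_le_mul_left _ (card_le_card ?_)))
      · intro z hz
        simp only [mem_filter] at hz ⊢
        exact hz
      · intro w hw
        simp only [mem_filter] at hw ⊢
        refine ⟨hw.1, hw.2.1, fun p hp hpd => ?_⟩
        refine le_trans ?_ (hw.2.2 p hp hpd)
        rw [hpw]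
        exact Real.rpow_le_rpow_of_exponent_le hb1 (by linarith)
    exact_mod_cast h5
  have hfin := hE.trans hfb'
  have hN12 : 0 < (N1 : ℝ) * N2 := by positivity
  have e1 : c * ((N1 : ℝ) ^ 2 * N2 ^ 2) / (2 * Real.log b) = (N1 * N2) * (c * (N1 * N2) / (2 * Real.log b)) := by ring
  rw [e1] at hfin
  have h5 := le_of_mul_le_mul_left hfin hN12
  refine le_trans ?_ h5
  rw [div_le_div_iff₀ hlb (by positivity)]
  have h6 := mul_le_mul_of_nonneg_left hNN (show 0 ≤ c / 8 * (2 * Real.log b) by positivity)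
  nlinarith

end Pool.Agent.Zk41.TD
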