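import Pool.Agent.Zk41.TD.Defs
import Pool.Agent.Helper112.LS
import Pool.Agent.H510R2.Div
import Pool.Agent.Y677.RSZ.Eng4

/-!
Zk41/TD (helper41): the level of distribution of the three-digit palindromes.
-/

set_option autoImplicit false

open Finset Filter

namespace Pool.Agent.Zk41.TD

open Pool.Agent.Helper112

lemma dir_le (M : ℕ) (t : ℝ) : ‖lsD M t‖ ≤ M := by
  unfold lsD
  refine (norm_sum_le _ _).trans ?_
  simp [ls_norm_ee]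

lemma dir_small (M d : ℕ) (hd : 0 < d) (s : ℤ) (hs : s ≠ 0) (h : 2 * |(s : ℝ)| ≤ d) :
    ‖lsD M ((s : ℝ) / d)‖ ≤ d * (1 / (2 * |(s : ℝ)|)) := by
  have hd0 : (0 : ℝ) < d := by exact_mod_cast hd
  have hs0 : 0 < |(s : ℝ)| := abs_pos.2 (by exact_mod_cast hs)
  have key : ‖lsD M (|(s : ℝ)| / d)‖ = ‖lsD M ((s : ℝ) / d)‖ := by
    rcases abs_cases (s : ℝ) with ⟨h1, _⟩ | ⟨h1, _⟩
    · rw [h1]
    · rw [h1, neg_div, lsD_norm_neg]
  rw [← key]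
  have ht0 : 0 < |(s : ℝ)| / d := by positivity
  have ht1 : |(s : ℝ)| / d ≤ 1 / 2 := by
    rw [div_le_iff₀ hd0]; linarith
  have hb := lsD_bound_sin M _ ht0 (by linarith)
  have hsn : 2 * (|(s : ℝ)| / d) ≤ Real.sin (Real.pi * (|(s : ℝ)| / d)) := by
    have := Real.mul_le_sin (x := Real.pi * (|(s : ℝ)| / d)) (by positivity) (by nlinarith [Real.pi_pos])
    have e : 2 / Real.pi * (Real.pi * (|(s : ℝ)| / d)) = 2 * (|(s : ℝ)| / d) := by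
      have := Real.pi_pos.ne'
      field_simp
    linarith
  have h3 := (mul_le_mul_of_nonneg_left hsn (norm_nonneg _)).trans hb
  rw [show (d : ℝ) * (1 / (2 * |(s : ℝ)|)) = 1 / (2 * (|(s : ℝ)| / d)) by field_simp, le_div_iff₀ (by positivity)]
  exact h3

lemma orth (d : ℕ) (hd : 0 < d) (z : ℕ) :
    ∑ h ∈ range d, ee ((z : ℝ) * ((h : ℝ) / d)) = if d ∣ z then (d : ℂ) else 0 := by
  have hd0 : (d : ℝ) ≠ 0 := by exact_mod_cast hd.ne'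
  have h1 : ∀ a : ℕ, ee ((z : ℝ) * ((a : ℝ) / d)) = ee ((z : ℝ) / d) ^ a := by
    intro a
    rw [← ls_ee_nat_mul]
    congr 1
    ring
  simp only [h1]
  split_ifs with h
  · obtain ⟨k, rfl⟩ := h
    have h2 : ((d * k : ℕ) : ℝ) / d = ((k : ℕ) : ℝ) := by
      push_cast
      field_simp
    rw [h2, ls_ee_nat]
    simp
  · have h3 : ee ((z : ℝ) / d) ≠ 1 := by
      intro h4
      obtain ⟨n, hn⟩ := ls_ee_eq_one h4
      apply h
      rw [div_eq_iff hd0] at hn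
      have h5 : (z : ℤ) = n * d := by exact_mod_cast hn
      exact Int.natCast_dvd_natCast.1 ⟨n, by rw [h5]; ring⟩
    rw [geom_sum_eq h3]
    have h4 : ee ((z : ℝ) / d) ^ d = 1 := by
      rw [← ls_ee_nat_mul, show (d : ℝ) * ((z : ℝ) / d) = (z : ℕ) by field_simp, ls_ee_nat]
    rw [h4, sub_self, zero_div]

lemma fac (b a0 c0 N1 N2 : ℕ) (t : ℝ) : ∑ z ∈ Q4 N1 N2, ee ((pq b a0 c0 z : ℝ) * t) =
    ee ((pal b a0 c0 : ℝ) * t) * (lsD N1 (((b : ℝ) ^ 2 + 1) * t) ^ 2 * lsD N2 ((b : ℝ) * t) ^ 2) := by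
  obtain ⟨u, hu⟩ : ∃ u : ℝ, u = ((b : ℝ) ^ 2 + 1) * t := ⟨_, rfl⟩
  obtain ⟨v, hv⟩ : ∃ v : ℝ, v = (b : ℝ) * t := ⟨_, rfl⟩
  obtain ⟨w, hw⟩ : ∃ w : ℝ, w = (pal b a0 c0 : ℝ) * t := ⟨_, rfl⟩
  have h0 : ∀ x y x' y' : ℕ, ee ((pq b a0 c0 (x, y, x', y') : ℝ) * t) = ee w * ((ee (x * u) * ee (y * u)) * (ee (x' * v) * ee (y' * v))) := by
    intro x y x' y'
    rw [← ls_ee_add, ← ls_ee_add, ← ls_ee_add, ← ls_ee_add, hu, hv, hw]
    congr 1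
    unfold pq pal
    push_cast
    ring
  rw [← hu, ← hv, ← hw]
  unfold Q4 lsD
  rw [sum_product]
  simp only [sum_product, h0]
  simp only [← mul_sum, ← sum_mul]
  ring

lemma cnt (b a0 c0 N1 N2 d : ℕ) (hd : 0 < d) :
    |(((Q4 N1 N2).filter (fun z => d ∣ pq b a0 c0 z)).card : ℝ) - (N1 : ℝ) ^ 2 * (N2 : ℝ) ^ 2 / d| ≤
      ∑ h ∈ Ico 1 d, 1 / (d : ℝ) * (‖lsD N1 (((b : ℝ) ^ 2 + 1) * ((h : ℝ) / d))‖ ^ 2 * ‖lsD N2 ((b : ℝ) * ((h : ℝ) / d))‖ ^ 2) := by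
  have hd0 : (0 : ℝ) < d := by exact_mod_cast hd
  have e1 : ((d * ((Q4 N1 N2).filter (fun z => d ∣ pq b a0 c0 z)).card : ℕ) : ℂ) =
      ∑ h ∈ range d, ∑ z ∈ Q4 N1 N2, ee ((pq b a0 c0 z : ℝ) * ((h : ℝ) / d)) := by
    rw [sum_comm]
    simp only [orth d hd]
    rw [← sum_filter, sum_const, nsmul_eq_mul]
    push_cast
    ring
  have e2 : range d = insert 0 (Ico 1 d) := by
    ext x; simp only [mem_range, mem_insert, mem_Ico]; omega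
  rw [e2, sum_insert (by simp)] at e1
  have e3 : ∑ z ∈ Q4 N1 N2, ee ((pq b a0 c0 z : ℝ) * (((0 : ℕ) : ℝ) / d)) = ((N1 ^ 2 * N2 ^ 2 : ℕ) : ℂ) := by
    simp [ls_ee_zero, Q4]
    ring
  rw [e3] at e1
  have e4 : ((d * (((Q4 N1 N2).filter (fun z => d ∣ pq b a0 c0 z)).card : ℝ) - (N1 : ℝ) ^ 2 * (N2 : ℝ) ^ 2 : ℝ) : ℂ) =
      ∑ h ∈ Ico 1 d, ∑ z ∈ Q4 N1 N2, ee ((pq b a0 c0 z : ℝ) * ((h : ℝ) / d)) := by
    push_cast at e1 ⊢
    rw [e1]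
    ring
  have e5 : |(d * (((Q4 N1 N2).filter (fun z => d ∣ pq b a0 c0 z)).card : ℝ) - (N1 : ℝ) ^ 2 * (N2 : ℝ) ^ 2 : ℝ)| ≤
      ∑ h ∈ Ico 1 d, (‖lsD N1 (((b : ℝ) ^ 2 + 1) * ((h : ℝ) / d))‖ ^ 2 * ‖lsD N2 ((b : ℝ) * ((h : ℝ) / d))‖ ^ 2) := by
    rw [← Real.norm_eq_abs, ← Complex.norm_real, e4]
    refine (norm_sum_le _ _).trans (sum_le_sum fun h _ => le_of_eq ?_)
    rw [fac, norm_mul, ls_norm_ee, one_mul, norm_mul, norm_pow, norm_pow]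
  rw [← mul_sum, one_div, ← div_eq_inv_mul, le_div_iff₀ hd0]
  calc _ = |(d * (((Q4 N1 N2).filter (fun z => d ∣ pq b a0 c0 z)).card : ℝ) - (N1 : ℝ) ^ 2 * (N2 : ℝ) ^ 2 : ℝ)| := by
        conv_lhs => rw [← abs_of_pos hd0, ← abs_mul, abs_of_pos hd0]
        congr 1
        field_simp
    _ ≤ _ := e5

/-- `1 / (2 |s|)` -/
noncomputable def us (s : ℤ) : ℝ := 1 / (2 * |(s : ℝ)|)

lemma us_nonneg (s : ℤ) : 0 ≤ us s := by unfold us; positivity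

lemma us_zero : us 0 = 0 := by unfold us; simp

lemma sum_us (R : ℕ) : ∑ s ∈ Icc (-(R : ℤ)) R, us s ≤ 1 + Real.log R := by
  have h : ∀ n : ℕ, ∑ s ∈ Icc (-(n : ℤ)) n, us s = ((harmonic n : ℚ) : ℝ) := by
    intro n
    induction n with
    | zero => simp [us_zero]
    | succ n ih =>
      have e : Icc (-((n + 1 : ℕ) : ℤ)) ((n + 1 : ℕ) : ℤ) = insert (-((n : ℤ) + 1)) (insert ((n : ℤ) + 1) (Icc (-(n : ℤ)) n)) := by
        ext x; simp only [mem_Icc, mem_insert]; push_cast; omega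
      rw [e, sum_insert (by simp only [mem_insert, mem_Icc]; omega), sum_insert (by simp only [mem_Icc]; omega), ih,
        harmonic_succ]
      unfold us
      push_cast
      rw [abs_neg, abs_of_nonneg (by positivity : (0 : ℝ) ≤ (n : ℝ) + 1)]
      field_simp
      ring
  rw [h]
  exact_mod_cast harmonic_le_one_add_log R

/-- the majorant of the terms -/
noncomputable def gs (N1 N2 : ℕ) (D : ℝ) (s : ℤ × ℤ) : ℝ :=
  (if s.1 = 0 then (N1 : ℝ) ^ 2 * N2 * us s.2 else 0) + (if s.2 = 0 then (N1 : ℝ) * (N2 : ℝ) ^ 2 * us s.1 else 0) +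
    N1 * N2 * D * (us s.1 * us s.2)

lemma gs_nonneg (N1 N2 : ℕ) (D : ℝ) (hD : 0 ≤ D) (s : ℤ × ℤ) : 0 ≤ gs N1 N2 D s := by
  unfold gs
  have h1 := us_nonneg s.1
  have h2 := us_nonneg s.2
  have h3 : (0 : ℝ) ≤ if s.1 = 0 then (N1 : ℝ) ^ 2 * N2 * us s.2 else 0 := by split_ifs <;> positivity
  have h4 : (0 : ℝ) ≤ if s.2 = 0 then (N1 : ℝ) * (N2 : ℝ) ^ 2 * us s.1 else 0 := by split_ifs <;> positivity
  positivity

lemma sum_gs (N1 N2 : ℕ) (D : ℝ) (R : ℕ) :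
    ∑ s ∈ Icc (-(R : ℤ)) R ×ˢ Icc (-(R : ℤ)) R, gs N1 N2 D s =
      (N1 : ℝ) ^ 2 * N2 * (∑ s ∈ Icc (-(R : ℤ)) R, us s) + (N1 : ℝ) * (N2 : ℝ) ^ 2 * (∑ s ∈ Icc (-(R : ℤ)) R, us s) +
        N1 * N2 * D * (∑ s ∈ Icc (-(R : ℤ)) R, us s) ^ 2 := by
  have h0 : (0 : ℤ) ∈ Icc (-(R : ℤ)) R := by rw [mem_Icc]; omega
  unfold gs
  rw [sum_add_distrib, sum_add_distrib]
  congr 1
  · congr 1
    · rw [sum_product, sum_eq_single (0 : ℤ)]
      · simp only [if_true]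
        rw [← mul_sum]
      · intro x _ hx
        simp only [if_neg hx, sum_const_zero]
      · intro h; exact absurd h0 h
    · rw [sum_product_right, sum_eq_single (0 : ℤ)]
      · simp only [if_true]
        rw [← mul_sum]
      · intro x _ hx
        simp only [if_neg hx, sum_const_zero]
      · intro h; exact absurd h0 h
  · rw [← mul_sum, sum_product, pow_two, sum_mul_sum]

/-- the residue of least absolute value -/
noncomputable def res (x : ℤ) (d : ℕ) : ℤ := x - d * round ((x : ℝ) / d)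

lemma res_abs (x : ℤ) (d : ℕ) (hd : 0 < d) : 2 * |((res x d : ℤ) : ℝ)| ≤ d := by
  have hd0 : (0 : ℝ) < d := by exact_mod_cast hd
  have h1 := abs_sub_round ((x : ℝ) / d)
  have h2 : ((res x d : ℤ) : ℝ) = d * ((x : ℝ) / d - round ((x : ℝ) / d)) := by
    unfold res
    push_cast
    field_simp
  rw [h2, abs_mul, abs_of_pos hd0]
  nlinarith

lemma res_lsD (M : ℕ) (x : ℤ) (d : ℕ) (hd : 0 < d) : lsD M ((x : ℝ) / d) = lsD M (((res x d : ℤ) : ℝ) / d) := by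
  have hd0 : (d : ℝ) ≠ 0 := by exact_mod_cast hd.ne'
  have h2 : (x : ℝ) / d = ((res x d : ℤ) : ℝ) / d + (round ((x : ℝ) / d) : ℤ) := by
    unfold res
    push_cast
    field_simp
    ring
  conv_lhs => rw [h2]
  rw [lsD_add_int]

lemma res_dvd (x : ℤ) (d : ℕ) : (d : ℤ) ∣ x - res x d := by
  unfold res
  exact ⟨round ((x : ℝ) / d), by ring⟩

/-- the pair of residues -/
noncomputable def rp (b d h : ℕ) : ℤ × ℤ := (res ((h * (b ^ 2 + 1) : ℕ) : ℤ) d, res ((h * b : ℕ) : ℤ) d)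

lemma rp_inj (b d h h' : ℕ) (e : rp b d h = rp b d h') : (d : ℤ) ∣ (h : ℤ) - h' := by
  unfold rp at e
  rw [Prod.mk.injEq] at e
  have h1 := dvd_sub (res_dvd ((h * (b ^ 2 + 1) : ℕ) : ℤ) d) (res_dvd ((h' * (b ^ 2 + 1) : ℕ) : ℤ) d)
  have h2 := dvd_sub (res_dvd ((h * b : ℕ) : ℤ) d) (res_dvd ((h' * b : ℕ) : ℤ) d)
  rw [e.1] at h1
  rw [e.2] at h2
  have h3 := dvd_sub h1 (h2.mul_left (b : ℤ))
  have e3 : (((h * (b ^ 2 + 1) : ℕ) : ℤ) - res ((h' * (b ^ 2 + 1) : ℕ) : ℤ) d) - (((h' * (b ^ 2 + 1) : ℕ) : ℤ) - res ((h' * (b ^ 2 + 1) : ℕ) : ℤ) d) -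
      (b : ℤ) * ((((h * b : ℕ) : ℤ) - res ((h' * b : ℕ) : ℤ) d) - (((h' * b : ℕ) : ℤ) - res ((h' * b : ℕ) : ℤ) d)) = (h : ℤ) - h' := by
    push_cast
    ring
  rwa [e3] at h3

lemma rp_ne (b d h : ℕ) (h1 : 1 ≤ h) (hd : h < d) : rp b d h ≠ (0, 0) := by
  intro e
  unfold rp at e
  rw [Prod.mk.injEq] at e
  have g1 := res_dvd ((h * (b ^ 2 + 1) : ℕ) : ℤ) d
  have g2 := res_dvd ((h * b : ℕ) : ℤ) d
  rw [e.1] at g1
  rw [e.2] at g2
  have g3 := dvd_sub g1 (g2.mul_left (b : ℤ))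
  have e3 : (((h * (b ^ 2 + 1) : ℕ) : ℤ) - 0) - (b : ℤ) * (((h * b : ℕ) : ℤ) - 0) = (h : ℤ) := by
    push_cast
    ring
  rw [e3] at g3
  have := Nat.le_of_dvd (by omega) (Int.natCast_dvd_natCast.1 g3)
  omega

lemma rp_dvd (b d h : ℕ) : (d : ℤ) ∣ (b : ℤ) * (rp b d h).1 - ((b : ℤ) ^ 2 + 1) * (rp b d h).2 := by
  have g1 := res_dvd ((h * (b ^ 2 + 1) : ℕ) : ℤ) d
  have g2 := res_dvd ((h * b : ℕ) : ℤ) d
  have g3 := dvd_sub (g2.mul_left ((b : ℤ) ^ 2 + 1)) (g1.mul_left (b : ℤ))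
  have e3 : ((b : ℤ) ^ 2 + 1) * (((h * b : ℕ) : ℤ) - res ((h * b : ℕ) : ℤ) d) - (b : ℤ) * (((h * (b ^ 2 + 1) : ℕ) : ℤ) - res ((h * (b ^ 2 + 1) : ℕ) : ℤ) d) =
      (b : ℤ) * (rp b d h).1 - ((b : ℤ) ^ 2 + 1) * (rp b d h).2 := by
    unfold rp
    push_cast
    ring
  rwa [e3] at g3

lemma term_le (b N1 N2 d h : ℕ) (D : ℝ) (hdD : (d : ℝ) ≤ D) (h1 : 1 ≤ h) (hd : h < d) :
    1 / (d : ℝ) * (‖lsD N1 (((b : ℝ) ^ 2 + 1) * ((h : ℝ) / d))‖ ^ 2 * ‖lsD N2 ((b : ℝ) * ((h : ℝ) / d))‖ ^ 2) ≤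
      gs N1 N2 D (rp b d h) := by
  have hd0 : 0 < d := by omega
  have hdR : (0 : ℝ) < d := by exact_mod_cast hd0
  have hne := rp_ne b d h h1 hd
  obtain ⟨s0, hs0⟩ : ∃ s : ℤ, s = (rp b d h).1 := ⟨_, rfl⟩
  obtain ⟨s1, hs1⟩ : ∃ s : ℤ, s = (rp b d h).2 := ⟨_, rfl⟩
  have e0 : lsD N1 (((b : ℝ) ^ 2 + 1) * ((h : ℝ) / d)) = lsD N1 ((s0 : ℝ) / d) := by
    rw [hs0]
    unfold rp
    rw [← res_lsD N1 _ d hd0]
    congr 1
    push_cast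
    ring
  have e1 : lsD N2 ((b : ℝ) * ((h : ℝ) / d)) = lsD N2 ((s1 : ℝ) / d) := by
    rw [hs1]
    unfold rp
    rw [← res_lsD N2 _ d hd0]
    congr 1
    push_cast
    ring
  have a0 : 2 * |(s0 : ℝ)| ≤ d := by rw [hs0]; exact res_abs _ d hd0
  have a1 : 2 * |(s1 : ℝ)| ≤ d := by rw [hs1]; exact res_abs _ d hd0
  have hrp : rp b d h = (s0, s1) := by rw [hs0, hs1]
  rw [e0, e1, hrp]
  rw [hrp] at hne
  have n0 := dir_le N1 ((s0 : ℝ) / d)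
  have n1 := dir_le N2 ((s1 : ℝ) / d)
  have p0 := norm_nonneg (lsD N1 ((s0 : ℝ) / d))
  have p1 := norm_nonneg (lsD N2 ((s1 : ℝ) / d))
  have u0 := us_nonneg s0
  have u1 := us_nonneg s1
  have q0 : s0 ≠ 0 → ‖lsD N1 ((s0 : ℝ) / d)‖ ^ 2 ≤ N1 * (d * us s0) := by
    intro hs
    rw [pow_two]
    exact mul_le_mul n0 (dir_small N1 d hd0 s0 hs a0) p0 (Nat.cast_nonneg _)
  have q1 : s1 ≠ 0 → ‖lsD N2 ((s1 : ℝ) / d)‖ ^ 2 ≤ N2 * (d * us s1) := by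
    intro hs
    rw [pow_two]
    exact mul_le_mul n1 (dir_small N2 d hd0 s1 hs a1) p1 (Nat.cast_nonneg _)
  have r0 : ‖lsD N1 ((s0 : ℝ) / d)‖ ^ 2 ≤ (N1 : ℝ) ^ 2 := pow_le_pow_left₀ p0 n0 2
  have r1 : ‖lsD N2 ((s1 : ℝ) / d)‖ ^ 2 ≤ (N2 : ℝ) ^ 2 := pow_le_pow_left₀ p1 n1 2
  have hD0 : 0 ≤ D := hdR.le.trans hdD
  unfold gs
  simp only
  have i3 : (0 : ℝ) ≤ if s0 = 0 then (N1 : ℝ) ^ 2 * N2 * us s1 else 0 := by split_ifs <;> positivity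
  have i4 : (0 : ℝ) ≤ if s1 = 0 then (N1 : ℝ) * (N2 : ℝ) ^ 2 * us s0 else 0 := by split_ifs <;> positivity
  have i5 : 0 ≤ (N1 : ℝ) * N2 * D * (us s0 * us s1) := by positivity
  by_cases z0 : s0 = 0
  · have z1 : s1 ≠ 0 := by
      intro h; apply hne; rw [z0, h]
    rw [if_pos z0]
    have : 1 / (d : ℝ) * (‖lsD N1 ((s0 : ℝ) / d)‖ ^ 2 * ‖lsD N2 ((s1 : ℝ) / d)‖ ^ 2) ≤ 1 / (d : ℝ) * ((N1 : ℝ) ^ 2 * (N2 * (d * us s1))) :=
      mul_le_mul_of_nonneg_left (mul_le_mul r0 (q1 z1) (by positivity) (by positivity)) (by positivity)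
    have e : 1 / (d : ℝ) * ((N1 : ℝ) ^ 2 * (N2 * (d * us s1))) = (N1 : ℝ) ^ 2 * N2 * us s1 := by field_simp
    linarith
  · by_cases z1 : s1 = 0
    · rw [if_pos z1]
      have : 1 / (d : ℝ) * (‖lsD N1 ((s0 : ℝ) / d)‖ ^ 2 * ‖lsD N2 ((s1 : ℝ) / d)‖ ^ 2) ≤ 1 / (d : ℝ) * ((N1 * (d * us s0)) * (N2 : ℝ) ^ 2) :=
        mul_le_mul_of_nonneg_left (mul_le_mul (q0 z0) r1 (by positivity) (by positivity)) (by positivity)
      have e : 1 / (d : ℝ) * ((N1 * (d * us s0)) * (N2 : ℝ) ^ 2) = (N1 : ℝ) * (N2 : ℝ) ^ 2 * us s0 := by field_simp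
      linarith
    · have : 1 / (d : ℝ) * (‖lsD N1 ((s0 : ℝ) / d)‖ ^ 2 * ‖lsD N2 ((s1 : ℝ) / d)‖ ^ 2) ≤ 1 / (d : ℝ) * ((N1 * (d * us s0)) * (N2 * (d * us s1))) :=
        mul_le_mul_of_nonneg_left (mul_le_mul (q0 z0) (q1 z1) (by positivity) (by positivity)) (by positivity)
      have e : 1 / (d : ℝ) * ((N1 * (d * us s0)) * (N2 * (d * us s1))) = (N1 : ℝ) * N2 * d * (us s0 * us s1) := by field_simp
      have e2 : (N1 : ℝ) * N2 * d * (us s0 * us s1) ≤ (N1 : ℝ) * N2 * D * (us s0 * us s1) := by gcongr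
      linarith

/-- the box of pairs of residues -/
noncomputable def bx (R : ℕ) : Finset (ℤ × ℤ) := Icc (-(R : ℤ)) R ×ˢ Icc (-(R : ℤ)) R

/-- the integer attached to a pair of residues -/
def nn (b : ℕ) (s : ℤ × ℤ) : ℤ := (b : ℤ) * s.1 - ((b : ℤ) ^ 2 + 1) * s.2

lemma one_mod (b N1 N2 d R : ℕ) (D : ℝ) (hdD : (d : ℝ) ≤ D) (hdR : d ≤ R) (hd : 0 < d) :
    ∑ h ∈ Ico 1 d, 1 / (d : ℝ) * (‖lsD N1 (((b : ℝ) ^ 2 + 1) * ((h : ℝ) / d))‖ ^ 2 * ‖lsD N2 ((b : ℝ) * ((h : ℝ) / d))‖ ^ 2) ≤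
      ∑ s ∈ (bx R).filter (fun s => s ≠ (0, 0)), if (d : ℤ) ∣ nn b s then gs N1 N2 D s else 0 := by
  have hD0 : 0 ≤ D := le_trans (Nat.cast_nonneg _) hdD
  calc _ ≤ ∑ h ∈ Ico 1 d, gs N1 N2 D (rp b d h) := by
        apply sum_le_sum
        intro h hh
        rw [mem_Ico] at hh
        exact term_le b N1 N2 d h D hdD hh.1 hh.2
    _ = ∑ s ∈ (Ico 1 d).image (rp b d), gs N1 N2 D s := by
        rw [sum_image]
        intro h hh h' hh' e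
        rw [mem_coe, mem_Ico] at hh hh'
        have h1 := rp_inj b d h h' e
        have h2 : ((h : ℤ) - h') = 0 := Int.eq_zero_of_abs_lt_dvd h1 (by rw [abs_lt]; omega)
        omega
    _ ≤ ∑ s ∈ ((bx R).filter (fun s => s ≠ (0, 0))).filter (fun s => (d : ℤ) ∣ nn b s), gs N1 N2 D s := by
        apply sum_le_sum_of_subset_of_nonneg
        · intro s hs
          rw [mem_image] at hs
          obtain ⟨h, hh, rfl⟩ := hs
          rw [mem_Ico] at hh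
          rw [mem_filter, mem_filter]
          refine ⟨⟨?_, rp_ne b d h hh.1 hh.2⟩, rp_dvd b d h⟩
          unfold bx
          have a0 : 2 * |(((rp b d h).1 : ℤ) : ℝ)| ≤ d := res_abs _ d hd
          have a1 : 2 * |(((rp b d h).2 : ℤ) : ℝ)| ≤ d := res_abs _ d hd
          have a0' : 2 * |(rp b d h).1| ≤ (d : ℤ) := by exact_mod_cast a0
          have a1' : 2 * |(rp b d h).2| ≤ (d : ℤ) := by exact_mod_cast a1
          have hdR' : (d : ℤ) ≤ R := by exact_mod_cast hdR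
          have k0 := abs_nonneg (rp b d h).1
          have k1 := abs_nonneg (rp b d h).2
          rw [mem_product, mem_Icc, mem_Icc, ← abs_le, ← abs_le]
          constructor <;> linarith
        · intro s _ _
          exact gs_nonneg N1 N2 D hD0 s
    _ = _ := by rw [sum_filter]

lemma nn_ne (b R : ℕ) (hb : 1 ≤ b) (hR : R ≤ b ^ 2) (s : ℤ × ℤ) (hs : s ∈ (bx R).filter (fun s => s ≠ (0, 0))) : nn b s ≠ 0 := by
  rw [mem_filter] at hs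
  unfold bx at hs
  rw [mem_product, mem_Icc, mem_Icc] at hs
  obtain ⟨⟨⟨h1, h2⟩, h3, h4⟩, h5⟩ := hs
  intro h
  unfold nn at h
  have hR' : (R : ℤ) ≤ (b : ℤ) ^ 2 := by exact_mod_cast hR
  have hb' : (1 : ℤ) ≤ b := by exact_mod_cast hb
  have hcop : IsCoprime ((b : ℤ) ^ 2 + 1) (b : ℤ) := ⟨1, -(b : ℤ), by ring⟩
  have hd : ((b : ℤ) ^ 2 + 1) ∣ (b : ℤ) * s.1 := ⟨s.2, by linarith⟩
  have hd1 := hcop.dvd_of_dvd_mul_left hd
  have e0 : s.1 = 0 := Int.eq_zero_of_abs_lt_dvd hd1 (by rw [abs_lt]; constructor <;> linarith)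
  have e1 : s.2 = 0 := by
    rw [e0] at h
    have h7 : ((b : ℤ) ^ 2 + 1) * s.2 = 0 := by linarith
    rcases mul_eq_zero.1 h7 with h8 | h8
    · nlinarith
    · exact h8
  exact h5 (Prod.ext e0 e1)

lemma nn_le (b R : ℕ) (hb : 1 ≤ b) (hR : R ≤ b ^ 2) (s : ℤ × ℤ) (hs : s ∈ (bx R).filter (fun s => s ≠ (0, 0))) :
    (nn b s).natAbs ≤ 3 * b ^ 4 := by
  rw [mem_filter] at hs
  unfold bx at hs
  rw [mem_product, mem_Icc, mem_Icc, ← abs_le, ← abs_le] at hs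
  obtain ⟨⟨h1, h2⟩, _⟩ := hs
  have hR' : (R : ℤ) ≤ (b : ℤ) ^ 2 := by exact_mod_cast hR
  have hb' : (1 : ℤ) ≤ b := by exact_mod_cast hb
  have h3 : |nn b s| ≤ (b : ℤ) * |s.1| + ((b : ℤ) ^ 2 + 1) * |s.2| := by
    unfold nn
    refine (abs_sub _ _).trans ?_
    rw [abs_mul, abs_mul, abs_of_nonneg (by positivity : (0 : ℤ) ≤ (b : ℤ)), abs_of_nonneg (by positivity : (0 : ℤ) ≤ (b : ℤ) ^ 2 + 1)]
  have h4 : (b : ℤ) * |s.1| ≤ b * b ^ 2 := mul_le_mul_of_nonneg_left (h1.trans hR') (by positivity)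
  have h5 : ((b : ℤ) ^ 2 + 1) * |s.2| ≤ (b ^ 2 + 1) * b ^ 2 := mul_le_mul_of_nonneg_left (h2.trans hR') (by positivity)
  have h6 : (b : ℤ) * b ^ 2 ≤ b ^ 4 := by nlinarith [sq_nonneg (b : ℤ), pow_pos (by linarith : (0 : ℤ) < b) 3]
  have h7 : (b : ℤ) ^ 2 ≤ b ^ 4 := by nlinarith [sq_nonneg (b : ℤ), pow_pos (by linarith : (0 : ℤ) < b) 2]
  have h8 : |nn b s| ≤ 3 * (b : ℤ) ^ 4 := by nlinarith
  have h9 : (((nn b s).natAbs : ℕ) : ℤ) ≤ ((3 * b ^ 4 : ℕ) : ℤ) := by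
    rw [Int.natCast_natAbs]; push_cast; exact h8
  exact_mod_cast h9

/-- the level of distribution, before the choice of constants -/
theorem level0 (b N1 N2 a0 c0 : ℕ) (hb : 1 ≤ b) (D : ℝ) (hD : 1 ≤ D) (hDb : D ≤ (b : ℝ) ^ 2) (T : ℝ) (hT0 : 0 ≤ T)
    (hT : ∀ n : ℕ, 1 ≤ n → n ≤ 3 * b ^ 4 → (n.divisors.card : ℝ) ≤ T) :
    ∑ d ∈ Icc 1 ⌊D⌋₊, |(((Q4 N1 N2).filter (fun z => d ∣ pq b a0 c0 z)).card : ℝ) - (N1 : ℝ) ^ 2 * (N2 : ℝ) ^ 2 / d| ≤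
      T * ((N1 : ℝ) ^ 2 * N2 * (1 + Real.log D) + (N1 : ℝ) * (N2 : ℝ) ^ 2 * (1 + Real.log D) +
        N1 * N2 * D * (1 + Real.log D) ^ 2) := by
  obtain ⟨R, hR⟩ : ∃ R : ℕ, R = ⌊D⌋₊ := ⟨_, rfl⟩
  rw [← hR]
  have hR1 : 1 ≤ R := by rw [hR]; exact Nat.le_floor (by exact_mod_cast hD)
  have hRD : (R : ℝ) ≤ D := by rw [hR]; exact Nat.floor_le (by linarith)
  have hRb : R ≤ b ^ 2 := by
    have : (R : ℝ) ≤ ((b ^ 2 : ℕ) : ℝ) := by push_cast; linarith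
    exact_mod_cast this
  have hD0 : 0 ≤ D := by linarith
  calc _ ≤ ∑ d ∈ Icc 1 R, ∑ s ∈ (bx R).filter (fun s => s ≠ (0, 0)), (if (d : ℤ) ∣ nn b s then gs N1 N2 D s else 0) := by
        apply sum_le_sum
        intro d hd
        rw [mem_Icc] at hd
        refine (cnt b a0 c0 N1 N2 d (by omega)).trans (one_mod b N1 N2 d R D ?_ hd.2 (by omega))
        exact le_trans (by exact_mod_cast hd.2) hRD
    _ = ∑ s ∈ (bx R).filter (fun s => s ≠ (0, 0)), ∑ d ∈ Icc 1 R, (if (d : ℤ) ∣ nn b s then gs N1 N2 D s else 0) := sum_comm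
    _ ≤ ∑ s ∈ (bx R).filter (fun s => s ≠ (0, 0)), T * gs N1 N2 D s := by
        apply sum_le_sum
        intro s hs
        rw [← sum_filter, sum_const, nsmul_eq_mul]
        apply mul_le_mul_of_nonneg_right _ (gs_nonneg N1 N2 D hD0 s)
        have h1 := nn_ne b R hb hRb s hs
        have h2 := nn_le b R hb hRb s hs
        refine le_trans ?_ (hT (nn b s).natAbs (Nat.one_le_iff_ne_zero.2 (Int.natAbs_ne_zero.2 h1)) h2)
        have h3 : (Icc 1 R).filter (fun d : ℕ => (d : ℤ) ∣ nn b s) ⊆ (nn b s).natAbs.divisors := by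
          intro d hd
          rw [mem_filter] at hd
          rw [Nat.mem_divisors]
          exact ⟨Int.natCast_dvd.1 hd.2, Int.natAbs_ne_zero.2 h1⟩
        exact_mod_cast card_le_card h3
    _ ≤ ∑ s ∈ bx R, T * gs N1 N2 D s := by
        apply sum_le_sum_of_subset_of_nonneg (filter_subset _ _)
        intro s _ _
        exact mul_nonneg hT0 (gs_nonneg N1 N2 D hD0 s)
    _ = T * ∑ s ∈ bx R, gs N1 N2 D s := by rw [mul_sum]
    _ ≤ _ := by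
        apply mul_le_mul_of_nonneg_left _ hT0
        unfold bx
        rw [sum_gs]
        have hu : ∑ s ∈ Icc (-(R : ℤ)) R, us s ≤ 1 + Real.log D := by
          refine (sum_us R).trans ?_
          have : Real.log R ≤ Real.log D := Real.log_le_log (by exact_mod_cast hR1) hRD
          linarith
        have hu0 : 0 ≤ ∑ s ∈ Icc (-(R : ℤ)) R, us s := sum_nonneg fun s _ => us_nonneg s
        gcongr

theorem lv : S_LV := by
  intro ε hε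
  obtain ⟨C, hC, hdiv⟩ := Pool.Agent.H510R2.divisor_bound (ε / 16) (by linarith)
  have hcast : Tendsto (fun b : ℕ => (b : ℝ)) atTop atTop := tendsto_natCast_atTop_atTop
  have hlim := Pool.Agent.Y677.RSZ.ev_log 2 (C * 3 ^ (ε / 16) * 9) (ε / 2) (by linarith)
  obtain ⟨b1, hb1⟩ := eventually_atTop.1 hlim
  refine ⟨b1 + 3, fun b hb N1 N2 a0 c0 hN1 hN2 hN1b hN2b D hD hDb => ?_⟩
  have hl := hb1 b (by omega)
  have hb3 : (3 : ℝ) ≤ b := by exact_mod_cast (by omega : 3 ≤ b)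
  have hb0 : (0 : ℝ) < b := by linarith
  have hlog1 : 1 ≤ Real.log b := by
    rw [Real.le_log_iff_exp_le hb0]
    have := Real.exp_one_lt_d9
    linarith
  obtain ⟨T, hTd⟩ : ∃ T : ℝ, T = C * 3 ^ (ε / 16) * (b : ℝ) ^ (ε / 4) := ⟨_, rfl⟩
  have hT0 : 0 ≤ T := by rw [hTd]; positivity
  have h0 := level0 b N1 N2 a0 c0 (by omega) D hD hDb T hT0 (by
    intro n hn1 hn2
    refine (hdiv n hn1).trans ?_
    rw [hTd, mul_assoc]
    apply mul_le_mul_of_nonneg_left _ hC.le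
    have h1 : (n : ℝ) ≤ 3 * (b : ℝ) ^ 4 := by exact_mod_cast hn2
    calc (n : ℝ) ^ (ε / 16) ≤ (3 * (b : ℝ) ^ 4) ^ (ε / 16) := Real.rpow_le_rpow (Nat.cast_nonneg _) h1 (by linarith)
      _ = 3 ^ (ε / 16) * (b : ℝ) ^ (ε / 4) := by
          rw [Real.mul_rpow (by norm_num) (by positivity), ← Real.rpow_natCast, ← Real.rpow_mul hb0.le]
          congr 2
          push_cast
          ring)
  refine h0.trans ?_
  have hlD0 : 0 ≤ Real.log D := Real.log_nonneg hD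
  have hlD : 1 + Real.log D ≤ 3 * Real.log b := by
    have h1 : Real.log D ≤ Real.log ((b : ℝ) ^ 2) := Real.log_le_log (by linarith) hDb
    rw [Real.log_pow] at h1
    push_cast at h1
    linarith
  have hD0 : 0 ≤ D := by linarith
  have e1 : (N1 : ℝ) ^ 2 * N2 * (1 + Real.log D) + (N1 : ℝ) * (N2 : ℝ) ^ 2 * (1 + Real.log D) + N1 * N2 * D * (1 + Real.log D) ^ 2 ≤
      (N1 * N2 * (N1 + N2 + D)) * (1 + Real.log D) ^ 2 := by
    have h1 : (1 + Real.log D) ≤ (1 + Real.log D) ^ 2 := by nlinarith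
    have h2 := mul_le_mul_of_nonneg_left h1 (show (0 : ℝ) ≤ (N1 : ℝ) ^ 2 * N2 by positivity)
    have h3 := mul_le_mul_of_nonneg_left h1 (show (0 : ℝ) ≤ (N1 : ℝ) * (N2 : ℝ) ^ 2 by positivity)
    nlinarith
  have e2 : (1 + Real.log D) ^ 2 ≤ 9 * Real.log b ^ 2 := by nlinarith
  calc _ ≤ T * ((N1 * N2 * (N1 + N2 + D)) * (9 * Real.log b ^ 2)) := by
        apply mul_le_mul_of_nonneg_left _ hT0
        exact e1.trans (mul_le_mul_of_nonneg_left e2 (by positivity))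
    _ = (C * 3 ^ (ε / 16) * 9 * Real.log b ^ 2) * (b : ℝ) ^ (ε / 4) * (N1 * N2 * (N1 + N2 + D)) := by rw [hTd]; ring
    _ ≤ (b : ℝ) ^ (ε / 2) * (b : ℝ) ^ (ε / 4) * (N1 * N2 * (N1 + N2 + D)) := by gcongr
    _ ≤ (b : ℝ) ^ ε * (N1 * N2 * (N1 + N2 + D)) := by
        apply mul_le_mul_of_nonneg_right _ (by positivity)
        rw [← Real.rpow_add hb0]
        exact Real.rpow_le_rpow_of_exponent_le (by linarith) (by linarith)

end Pool.Agent.Zk41.TD
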